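import Pool.Agent.Helper7.CMTypes2

/-!
Families of simple abelian varieties with complex multiplication whose dimensions are distinct
prime numbers, and elliptic curves.
-/

namespace Pool.Agent.GPC

/-- `K` contains an imaginary quadratic field. -/
def HasIQ (K : Type) [Field K] : Prop := ∃ q : ℚ, q < 0 ∧ ∃ x : K, x ^ 2 = (q : K)

/-- `K` and `K'` contain the same imaginary quadratic field. -/
def SameIQ (K K' : Type) [Field K] [Field K'] : Prop :=
  ∃ q : ℚ, q < 0 ∧ (∃ x : K, x ^ 2 = (q : K)) ∧ ∃ x : K', x ^ 2 = (q : K')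

/-- The factors `A_i`, `i ∈ T`, with complex multiplication by `K_i`, are simple, their dimensions
are `1` or prime numbers (if `dim A_i = 2` then `K_i` contains no imaginary quadratic field), two
different factors have different dimensions unless both are elliptic curves with different fields.
The codimension `k` satisfies `k < dim A_i` if `dim A_i > 1`, `n_i ≥ 2` and `K_i` contains an
imaginary quadratic field, and `2 k < dim A_i + dim A_j` if `i ≠ j`, `n_i, n_j ≥ 1` and `K_i`, `K_j`
contain imaginary quadratic fields (the same one, if `dim A_i = 1` or `dim A_j = 1`). -/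
structure PrimeFamCM {I : Type} (A : I → AbVar) (n : I → ℕ) (K : I → Type) [∀ i, Field (K i)]
    (T : Finset I) (k : ℕ) : Prop where
  simple : ∀ i ∈ T, (A i).IsSimple
  dim : ∀ i ∈ T, (A i).g = 1 ∨ ((A i).g.Prime ∧ ((A i).g = 2 → ¬ HasIQ (K i)))
  distinct : ∀ i ∈ T, ∀ j ∈ T, i ≠ j → (A i).g = (A j).g → (A i).g = 1 ∧ ¬ SameIQ (K i) (K j)
  power : ∀ i ∈ T, (A i).g ≠ 1 → 2 ≤ n i → HasIQ (K i) → k < (A i).g
  pair : ∀ i ∈ T, ∀ j ∈ T, i ≠ j → n i ≠ 0 → n j ≠ 0 → HasIQ (K i) → HasIQ (K j) →
    ((A i).g = 1 ∨ (A j).g = 1 → SameIQ (K i) (K j)) → 2 * k < (A i).g + (A j).g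

/-- one factor of prime dimension -/
lemma PrimeDimCM.fam {I : Type} {A : I → AbVar} {n : I → ℕ} {K : I → Type} [∀ i, Field (K i)]
    {T : Finset I} (h : PrimeDimCM A n T) (k : ℕ) :
    LowDimCM A n K T ∨ PrimeFamCM A n K T k := by
  classical
  obtain ⟨i₀, rfl, hs, hp, hn⟩ := h
  by_cases h2 : (A i₀).g = 2
  · left
    have hsum : ∑ i ∈ ({i₀} : Finset I), n i * (A i).g = 2 := by
      rw [Finset.sum_singleton, hn, h2]
    refine ⟨fun i hi => ?_, fun i hi j hj hij => ?_, by omega, fun h4 => by omega⟩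
    · rw [Finset.mem_singleton] at hi
      rw [hi]; exact hs
    · rw [Finset.mem_singleton] at hi hj
      exact absurd (hi.trans hj.symm) hij
  · right
    refine ⟨fun i hi => ?_, fun i hi => ?_, fun i hi j hj hij => ?_, fun i hi _ h3 => ?_,
      fun i hi j hj hij => ?_⟩
    · rw [Finset.mem_singleton] at hi
      rw [hi]; exact hs
    · rw [Finset.mem_singleton] at hi
      rw [hi]; exact Or.inr ⟨hp, fun h => absurd h h2⟩
    · rw [Finset.mem_singleton] at hi hj
      exact absurd (hi.trans hj.symm) hij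
    · rw [Finset.mem_singleton] at hi
      rw [hi] at h3; omega
    · rw [Finset.mem_singleton] at hi hj
      exact absurd (hi.trans hj.symm) hij

end Pool.Agent.GPC
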