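import Pool.Agent.Helper7.MainB
import Pool.Agent.Helper28.GPC.PrimeCond

/-!
Relations between the weights of simple CM factors of pairwise distinct prime dimensions.
-/

namespace Pool.Agent.Helper28.GPC

open NumberField Pool.Agent.GPC Polynomial
open Pool.Agent.Helper7 hiding conjT conjT_conjT
open Pool.Agent.Helper7.WM
open Pool.Agent.Helper84 (xi conjT conjT_conjT xi_odd xi_conj_left xi_conj_right act cc_ne act_cc
  cc_cc act_star exists_aut act_injective)

section perm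

variable {K : Type} [Field K] [NumberField K] [IsCMField K]

/-- an element of odd prime order commuting with complex conjugation -/
lemma orbit_free (p : ℕ) (hp : p.Prime) (hp2 : p ≠ 2) (g : Equiv.Perm (K →+* ℂ))
    (hc : ∀ σ, g (ComplexEmbedding.conjugate σ) = ComplexEmbedding.conjugate (g σ))
    (hpow : g ^ p = 1) (hne : g ≠ 1) : ∃ σ₀ : K →+* ℂ, g σ₀ ≠ σ₀ ∧
      (∀ i < p, ∀ j < p, (g ^ i) σ₀ = (g ^ j) σ₀ → i = j) ∧
      (∀ i < p, ∀ j < p, (g ^ i) σ₀ ≠ ComplexEmbedding.conjugate ((g ^ j) σ₀)) := by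
  classical
  obtain ⟨σ₀, hσ₀⟩ : ∃ σ₀, g σ₀ ≠ σ₀ := by
    by_contra hcon
    push Not at hcon
    exact hne (Equiv.ext hcon)
  have hcj : ∀ (j : ℕ) (σ : K →+* ℂ), (g ^ j) (ComplexEmbedding.conjugate σ) =
      ComplexEmbedding.conjugate ((g ^ j) σ) := by
    intro j σ
    induction j with
    | zero => rfl
    | succ j ih => rw [pow_succ', Equiv.Perm.mul_apply, ih, Equiv.Perm.mul_apply, hc]
  have hfix : ∀ j : ℕ, (g ^ j) σ₀ = σ₀ → p ∣ j := by
    intro j hj
    by_contra hndvd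
    have hcop : Nat.Coprime j p := ((Nat.Prime.coprime_iff_not_dvd hp).mpr hndvd).symm
    apply hσ₀
    obtain ⟨m, hm⟩ := Nat.exists_mul_mod_eq_one_of_coprime hcop hp.one_lt
    have h1 : (g ^ (j * m)) σ₀ = σ₀ := by
      rw [pow_mul]
      have : ∀ m : ℕ, ((g ^ j) ^ m) σ₀ = σ₀ := by
        intro m
        induction m with
        | zero => rfl
        | succ m ih => rw [pow_succ, Equiv.Perm.mul_apply, hj, ih]
      exact this m
    have h2 : g ^ (j * m) = g := by
      have h3 : j * m = p * (j * m / p) + 1 := by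
        have := Nat.div_add_mod (j * m) p
        omega
      rw [h3, pow_add, pow_mul, hpow, one_pow, one_mul, pow_one]
    rw [h2] at h1
    exact h1
  have hinj : ∀ i < p, ∀ j < p, i ≤ j → (g ^ i) σ₀ = (g ^ j) σ₀ → i = j := by
    intro i hi j hj hij h
    have h1 : (g ^ (j - i)) σ₀ = σ₀ := by
      have h2 : g ^ j = g ^ i * g ^ (j - i) := by
        rw [← pow_add]; congr 1; omega
      rw [h2, Equiv.Perm.mul_apply] at h
      exact (Equiv.injective _ h).symm
    have h2 := hfix _ h1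
    have h3 := Nat.eq_zero_of_dvd_of_lt h2 (by omega)
    omega
  refine ⟨σ₀, hσ₀, fun i hi j hj h => ?_, ?_⟩
  · rcases le_total i j with h1 | h1
    · exact hinj i hi j hj h1 h
    · exact (hinj j hj i hi h1 h.symm).symm
  · intro i hi j hj h
    have h1 : (g ^ (i + (p - j))) σ₀ = ComplexEmbedding.conjugate σ₀ := by
      have h2 : (g ^ (p - j)) (ComplexEmbedding.conjugate ((g ^ j) σ₀)) =
          ComplexEmbedding.conjugate σ₀ := by
        rw [hcj]
        congr 1
        rw [← Equiv.Perm.mul_apply, ← pow_add]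
        have h3 : p - j + j = p := by omega
        rw [h3, hpow]; rfl
      rw [← h2, ← h, ← Equiv.Perm.mul_apply, ← pow_add]
      congr 2
      omega
    have h2 : (g ^ ((i + (p - j)) + (i + (p - j)))) σ₀ = σ₀ := by
      rw [pow_add, Equiv.Perm.mul_apply, h1, hcj, h1, cc_cc]
    have h3 := hfix _ h2
    have h4 : p ∣ 2 * (i + (p - j)) := by rw [two_mul]; exact h3
    have h5 : p ∣ i + (p - j) := by
      rcases (Nat.Prime.dvd_mul hp).mp h4 with h | h
      · exact absurd ((Nat.prime_dvd_prime_iff_eq hp Nat.prime_two).mp h) hp2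
      · exact h
    obtain ⟨m, hm⟩ := h5
    rw [hm, pow_mul, hpow, one_pow] at h1
    exact cc_ne σ₀ h1.symm

/-- the two orbits as a function -/
lemma orbit_inj (p : ℕ) (g : Equiv.Perm (K →+* ℂ)) (σ₀ : K →+* ℂ)
    (h1 : ∀ i < p, ∀ j < p, (g ^ i) σ₀ = (g ^ j) σ₀ → i = j)
    (h2 : ∀ i < p, ∀ j < p, (g ^ i) σ₀ ≠ ComplexEmbedding.conjugate ((g ^ j) σ₀)) :
    Function.Injective (Sum.elim (fun j : Fin p => (g ^ j.1) σ₀)
      (fun j : Fin p => ComplexEmbedding.conjugate ((g ^ j.1) σ₀))) := by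
  rintro (i | i) (j | j) h
  · rw [Fin.ext (h1 _ i.2 _ j.2 h)]
  · exact absurd h (h2 _ i.2 _ j.2)
  · exact absurd h.symm (h2 _ j.2 _ i.2)
  · have h3 := congrArg ComplexEmbedding.conjugate h
    simp only [Sum.elim_inr] at h3
    rw [cc_cc, cc_cc] at h3
    rw [Fin.ext (h1 _ i.2 _ j.2 h3)]

lemma phi_cc (τ : ℂ ≃+* ℂ) (σ : K →+* ℂ) : phi (K := K) τ (ComplexEmbedding.conjugate σ) =
    ComplexEmbedding.conjugate (phi (K := K) τ σ) := by
  have := phi_conj (K := K) τ σ 1
  rwa [pow_one] at this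

/-- there is no element of odd prime order if the degree is too small -/
lemma not_dvd_order (p : ℕ) (hp : p.Prime) (hp2 : p ≠ 2) (d : ℕ)
    (hdeg : Module.finrank ℚ K = 2 * d) (hd : d < p) (τ : ℂ ≃+* ℂ) :
    ¬ p ∣ orderOf (phi (K := K) τ) := by
  intro hdvd
  obtain ⟨m, hm⟩ := hdvd
  have hpos : 0 < orderOf (phi (K := K) τ) := orderOf_pos _
  have hm0 : m ≠ 0 := by
    rintro rfl
    rw [mul_zero] at hm
    omega
  let g : Equiv.Perm (K →+* ℂ) := phi (K := K) τ ^ m
  have hg : orderOf g = p := by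
    have h1 := orderOf_pow_of_dvd (x := phi (K := K) τ) hm0 ⟨p, by rw [hm]; ring⟩
    rw [show g = phi (K := K) τ ^ m from rfl, h1, hm]
    exact Nat.mul_div_cancel _ (Nat.pos_of_ne_zero hm0)
  have hpow : g ^ p = 1 := by rw [← hg]; exact pow_orderOf_eq_one g
  have hne : g ≠ 1 := by
    intro h
    rw [h, orderOf_one] at hg
    exact hp.one_lt.ne hg
  obtain ⟨σ₀, -, h1, h2⟩ := orbit_free p hp hp2 g (fun σ => by
    have := phi_conj (K := K) τ σ m
    exact this) hpow hne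
  have h3 := Fintype.card_le_of_injective _ (orbit_inj p g σ₀ h1 h2)
  rw [Fintype.card_sum, Fintype.card_fin, NumberField.Embeddings.card, hdeg] at h3
  omega

end perm

section fam

variable {I : Type} {L : I → Type} [∀ i, Field (L i)] [∀ i, NumberField (L i)]

/-- an automorphism of order `p` on one factor, trivial on smaller ones -/
lemma exists_tau (T : Finset I) (g : I → ℕ) (hC : ∀ i ∈ T, IsCMField (L i))
    (hdeg : ∀ i ∈ T, Module.finrank ℚ (L i) = 2 * g i) (i₀ : I) (hi₀ : i₀ ∈ T) (hp : (g i₀).Prime)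
    (hp2 : g i₀ ≠ 2) : ∃ τ : ℂ ≃+* ℂ, orderOf (phi (K := L i₀) τ) = g i₀ ∧
      ∀ j ∈ T, g j < g i₀ → phi (K := L j) τ = 1 := by
  classical
  obtain ⟨τ₀, hτ₀⟩ := exists_order (K := L i₀) (g i₀) hp (hdeg i₀ hi₀)
  let T' := T.filter (fun j => g j < g i₀)
  let N : ℕ := ∏ j ∈ T', orderOf (phi (K := L j) τ₀)
  have hcop : Nat.Coprime (orderOf (phi (K := L i₀) τ₀)) N := by
    rw [hτ₀]
    refine Nat.Coprime.prod_right fun j hj => ?_
    obtain ⟨hjT, hlt⟩ := Finset.mem_filter.mp hj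
    have := hC j hjT
    exact (Nat.Prime.coprime_iff_not_dvd hp).mpr
      (not_dvd_order (g i₀) hp hp2 (g j) (hdeg j hjT) hlt τ₀)
  refine ⟨τ₀ ^ N, ?_, fun j hj hlt => ?_⟩
  · rw [map_pow, Nat.Coprime.orderOf_pow hcop, hτ₀]
  · have h1 : orderOf (phi (K := L j) τ₀) ∣ N :=
      Finset.dvd_prod_of_mem (fun j => orderOf (phi (K := L j) τ₀))
        (Finset.mem_filter.mpr ⟨hj, hlt⟩)
    rw [map_pow]
    exact orderOf_dvd_iff_pow_eq_one.mp h1

/-- `u` is invariant up to sign on the component `i` -/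
def SemiInv (i : I) (u : Emb L → ℚ) : Prop := ∀ τ : ℂ ≃+* ℂ,
  (∀ σ : L i →+* ℂ, u ⟨i, act τ σ⟩ = u ⟨i, σ⟩) ∨ (∀ σ : L i →+* ℂ, u ⟨i, act τ σ⟩ = - u ⟨i, σ⟩)

omit [∀ i, NumberField (L i)] in
lemma semiInv_of_abs (U : Submodule ℚ (Emb L → ℚ)) (hU : IsOddModule L U) (i : I)
    (S : Set (L i →+* ℂ)) (hS : ∀ σ : L i →+* ℂ, σ ∈ S ∨ ∃ ρ ∈ S, σ = ComplexEmbedding.conjugate ρ)
    (σ₀ : L i →+* ℂ) (hσ₀ : σ₀ ∈ S)
    (h : ∀ u ∈ U, ∀ σ ∈ S, u ⟨i, σ⟩ = u ⟨i, σ₀⟩) : ∀ u ∈ U, SemiInv i u := by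
  intro u hu τ
  have hodd := (hU u hu).1
  have hu' := (hU u hu).2 τ
  have hodd' := (hU _ hu').1
  have e1 : ∀ σ : L i →+* ℂ, translate L τ u ⟨i, σ⟩ = u ⟨i, act τ σ⟩ := fun σ => rfl
  have key : ∀ c : ℚ, u ⟨i, act τ σ₀⟩ = c * u ⟨i, σ₀⟩ →
      ∀ σ : L i →+* ℂ, u ⟨i, act τ σ⟩ = c * u ⟨i, σ⟩ := by
    intro c hc σ
    rcases hS σ with h1 | ⟨ρ, h1, rfl⟩
    · have h2 := h _ hu' σ h1
      rw [e1, e1] at h2
      rw [h2, hc, h u hu σ h1]
    · have h2 := h _ hu' ρ h1
      rw [e1, e1] at h2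
      have h3 := hodd' i ρ
      rw [e1, e1] at h3
      rw [h3, h2, hc, hodd, h u hu ρ h1]
      ring
  rcases hS (act τ σ₀) with h1 | ⟨ρ, h1, h2⟩
  · left
    intro σ
    rw [key 1 (by rw [h u hu _ h1, one_mul]), one_mul]
  · right
    intro σ
    rw [key (-1) (by rw [h2, hodd, h u hu _ h1]; ring)]
    ring

/-- the induction step -/
lemma semi_step (T : Finset I) (g : I → ℕ) (hR : ∀ i, i ∉ T → IsTotallyReal (L i))
    (hC : ∀ i ∈ T, IsCMField (L i))
    (hdeg : ∀ i ∈ T, Module.finrank ℚ (L i) = 2 * g i)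
    (U : Submodule ℚ (Emb L → ℚ)) (hU : IsOddModule L U)
    (h2 : ∀ s t : Emb L, s.1 ∈ T → t.1 = s.1 → (fun u => xi s u + xi t u) ∈ U → t = conjT s)
    (i₀ : I) (hi₀ : i₀ ∈ T) (hp : (g i₀).Prime) (hp2 : g i₀ ≠ 2)
    (hinj : ∀ j ∈ T, g j = g i₀ → j = i₀)
    (hbig : ∀ j ∈ T, g i₀ < g j → ∀ u ∈ U, SemiInv j u) : ∀ u ∈ U, SemiInv i₀ u := by
  classical
  have := hC i₀ hi₀
  obtain ⟨τ₀, hτ₀, hsmall⟩ := exists_tau T g hC hdeg i₀ hi₀ hp hp2
  obtain ⟨p, hpdef⟩ : ∃ p, p = g i₀ := ⟨_, rfl⟩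
  rw [← hpdef] at hp hp2 hτ₀
  let τ : ℂ ≃+* ℂ := τ₀ ^ 2
  have hordτ : orderOf (phi (K := L i₀) τ) = p := by
    have h1 : phi (K := L i₀) τ = phi (K := L i₀) τ₀ ^ 2 := map_pow _ _ _
    rw [h1, Nat.Coprime.orderOf_pow, hτ₀]
    rw [hτ₀]
    exact (Nat.coprime_primes hp Nat.prime_two).mpr hp2
  have hpow : (phi (K := L i₀) τ) ^ p = 1 := by rw [← hordτ]; exact pow_orderOf_eq_one _
  have hne : phi (K := L i₀) τ ≠ 1 := by
    intro h
    rw [h, orderOf_one] at hordτ
    exact hp.one_lt.ne hordτ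
  obtain ⟨σ₀, hσ₀, hin, hconj⟩ := orbit_free p hp hp2 (phi (K := L i₀) τ) (phi_cc τ) hpow hne
  have horb : ∀ σ : L i₀ →+* ℂ, ∃ j < p, σ = ((phi (K := L i₀) τ) ^ j) σ₀ ∨
      σ = ComplexEmbedding.conjugate (((phi (K := L i₀) τ) ^ j) σ₀) := by
    have h1 : Fintype.card (Fin p ⊕ Fin p) = Fintype.card (L i₀ →+* ℂ) := by
      rw [Fintype.card_sum, Fintype.card_fin, NumberField.Embeddings.card, hdeg i₀ hi₀, hpdef]; ring
    intro σ
    obtain ⟨j | j, hj⟩ := ((Fintype.bijective_iff_injective_and_card _).mpr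
      ⟨orbit_inj p (phi (K := L i₀) τ) σ₀ hin hconj, h1⟩).2 σ
    · exact ⟨j.1, j.2, Or.inl hj.symm⟩
    · exact ⟨j.1, j.2, Or.inr hj.symm⟩
  let T₁ : Module.End ℚ (Emb L → ℚ) := trL τ.symm
  let sg : ℕ → Emb L := fun j => ⟨i₀, ((phi (K := L i₀) τ) ^ j) σ₀⟩
  have hinv : ∀ (t : Emb L), (⟨t.1, act τ (act τ.symm t.2)⟩ : Emb L) = t := by
    rintro ⟨i, σ⟩
    have : act τ (act τ.symm σ) = σ := RingHom.ext fun x => τ.apply_symm_apply (σ x)
    show (⟨i, act τ (act τ.symm σ)⟩ : Emb L) = ⟨i, σ⟩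
    rw [this]
  have hinv' : ∀ (t : Emb L), (⟨t.1, act τ.symm (act τ t.2)⟩ : Emb L) = t := by
    rintro ⟨i, σ⟩
    have : act τ.symm (act τ σ) = σ := RingHom.ext fun x => τ.symm_apply_apply (σ x)
    show (⟨i, act τ.symm (act τ σ)⟩ : Emb L) = ⟨i, σ⟩
    rw [this]
  have hTxi : ∀ s : Emb L, s.1 = i₀ → T₁ (xi s) = xi ⟨s.1, act τ s.2⟩ := by
    rintro ⟨i, σ⟩ hi
    simp only at hi
    subst hi
    funext t
    rw [trL_apply]
    unfold xi
    have e1 : ((⟨i, σ⟩ : Emb L) = ⟨t.1, act τ.symm t.2⟩) = ((⟨i, act τ σ⟩ : Emb L) = t) := by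
      apply propext
      constructor
      · intro h
        rw [← hinv t]
        have h1 := congrArg (fun s : Emb L => (⟨s.1, act τ s.2⟩ : Emb L)) h
        exact h1
      · intro h
        rw [← h]
        exact (hinv' ⟨i, σ⟩).symm
    have e2 : (conjT (⟨i, σ⟩ : Emb L) = ⟨t.1, act τ.symm t.2⟩) =
        (conjT (⟨i, act τ σ⟩ : Emb L) = t) := by
      have h0 : conjT (⟨i, act τ σ⟩ : Emb L) = ⟨i, act τ (ComplexEmbedding.conjugate σ)⟩ := by
        rw [act_cc]; rfl
      apply propext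
      rw [h0]
      constructor
      · intro h
        rw [← hinv t]
        have h1 := congrArg (fun s : Emb L => (⟨s.1, act τ s.2⟩ : Emb L)) h
        exact h1
      · intro h
        rw [← h]
        exact (hinv' ⟨i, ComplexEmbedding.conjugate σ⟩).symm
    simp only [e1, e2]
  have hTj : ∀ j : ℕ, (T₁ ^ j) (xi (sg 0)) = xi (sg j) := by
    intro j
    induction j with
    | zero => rfl
    | succ j ih =>
      rw [pow_succ', Module.End.mul_apply, ih, hTxi _ rfl]
      congr 1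
      show (⟨i₀, act τ (((phi (K := L i₀) τ) ^ j) σ₀)⟩ : Emb L) = ⟨i₀, _⟩
      rw [pow_succ', Equiv.Perm.mul_apply, phi_apply]
  have hsgp : sg p = sg 0 := by
    show (⟨i₀, ((phi (K := L i₀) τ) ^ p) σ₀⟩ : Emb L) = ⟨i₀, ((phi (K := L i₀) τ) ^ 0) σ₀⟩
    rw [hpow, pow_zero]
  have hsginj : ∀ i < p, ∀ j < p, sg i = sg j → i = j := fun i hi j hj h =>
    hin i hi j hj (sigma_mk_injective (β := fun i => (L i →+* ℂ)) h)
  have hsgconj : ∀ i < p, ∀ j < p, conjT (sg i) ≠ sg j := fun i hi j hj h =>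
    hconj j hj i hi (sigma_mk_injective (β := fun i => (L i →+* ℂ)) h).symm
  -- the main step
  have hmain : ∀ u ∈ U, ∀ σ : L i₀ →+* ℂ, u ⟨i₀, act τ.symm σ⟩ = u ⟨i₀, σ⟩ := by
    intro u hu
    have hodd := (hU u hu).1
    let P : Polynomial ℚ := ∑ j ∈ Finset.range p, C (u (sg j)) * X ^ j
    let ur : Emb L → ℚ := (aeval T₁ P) (xi (sg 0))
    have hur : ur = ∑ j ∈ Finset.range p, u (sg j) • xi (sg j) := by
      simp only [ur, P, map_sum, map_mul, aeval_C, map_pow, aeval_X, LinearMap.sum_apply,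
        Module.End.mul_apply, Module.algebraMap_end_apply, hTj]
    have hurodd : ∀ s, ur (conjT s) = - ur s := by
      intro s
      rw [hur, Finset.sum_apply, Finset.sum_apply, ← Finset.sum_neg_distrib]
      refine Finset.sum_congr rfl fun i _ => ?_
      rw [Pi.smul_apply, Pi.smul_apply, xi_conj_right, smul_neg]
    have hval : ∀ j < p, ur (sg j) = u (sg j) := by
      intro j hj
      rw [hur, Finset.sum_apply, Finset.sum_eq_single j]
      · rw [Pi.smul_apply, smul_eq_mul, Helper84.xi_self (hsgconj j hj j hj), mul_one]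
      · intro i hi hij
        rw [Finset.mem_range] at hi
        rw [Pi.smul_apply, Helper84.xi_eq_zero (fun h => hij (hsginj i hi j hj h))
          (hsgconj i hi j hj), smul_zero]
      · intro h; exact absurd (Finset.mem_range.mpr hj) h
    have hur1 : ∀ σ : L i₀ →+* ℂ, ur ⟨i₀, σ⟩ = u ⟨i₀, σ⟩ := by
      intro σ
      obtain ⟨j, hj, h | h⟩ := horb σ
      · subst h
        exact hval j hj
      · subst h
        have h3 : (⟨i₀, ComplexEmbedding.conjugate (((phi (K := L i₀) τ) ^ j) σ₀)⟩ : Emb L) =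
            conjT (sg j) := rfl
        rw [hodd, h3, hurodd, hval j hj]
    have hur0 : ∀ s : Emb L, s.1 ≠ i₀ → ur s = 0 := by
      intro s hs
      rw [hur, Finset.sum_apply, Finset.sum_eq_zero]
      intro i _
      obtain ⟨i', σ⟩ := s
      rw [Pi.smul_apply, Helper84.xi_off (fun h => hs h.symm), smul_zero]
    -- the difference
    have hv : (aeval T₁ (X - 1 : Polynomial ℚ)) ur = (aeval T₁ (X - 1 : Polynomial ℚ)) u := by
      rw [map_sub, aeval_X, map_one]
      funext s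
      show T₁ ur s - ur s = T₁ u s - u s
      have e1 : ∀ w : Emb L → ℚ, T₁ w s = w ⟨s.1, act τ.symm s.2⟩ := fun w => rfl
      rw [e1, e1]
      by_cases hs : s.1 = i₀
      · obtain ⟨i, σ⟩ := s
        simp only at hs
        subst hs
        rw [hur1, hur1]
      · rw [hur0 s hs, hur0 ⟨s.1, act τ.symm s.2⟩ hs, sub_self]
        symm
        rw [sub_eq_zero]
        obtain ⟨j, σ⟩ := s
        simp only at hs ⊢
        by_cases hjT : j ∈ T
        · rcases lt_trichotomy (g j) p with hlt | heq | hgt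
          · -- trivial action
            have h3 := hsmall j hjT (by rw [← hpdef]; exact hlt)
            have h5 : phi (K := L j) τ = 1 := by
              have h6 : phi (K := L j) τ = phi (K := L j) τ₀ ^ 2 := map_pow _ _ _
              rw [h6, h3, one_pow]
            have h6 : act τ (act τ.symm σ) = act τ.symm σ := by
              have h7 := congrArg (fun f : Equiv.Perm (L j →+* ℂ) => f (act τ.symm σ)) h5
              exact h7
            have h8 : act τ (act τ.symm σ) = σ := RingHom.ext fun x => τ.apply_symm_apply (σ x)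
            rw [← h6, h8]
          · exact absurd (hinj j hjT (by rw [heq, hpdef])) hs
          · have h3 := hbig j hjT (by rw [← hpdef]; exact hgt) u hu τ₀
            have h5 : ∀ ρ : L j →+* ℂ, u ⟨j, act τ ρ⟩ = u ⟨j, ρ⟩ := by
              intro ρ
              have h6 : act τ ρ = act τ₀ (act τ₀ ρ) := rfl
              rw [h6]
              rcases h3 with h3 | h3
              · rw [h3, h3]
              · rw [h3, h3, neg_neg]
            have h8 : act τ (act τ.symm σ) = σ := RingHom.ext fun x => τ.apply_symm_apply (σ x)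
            rw [← h5 (act τ.symm σ), h8]
        · have hz : ∀ ρ : L j →+* ℂ, u ⟨j, ρ⟩ = 0 := by
            intro ρ
            have := hR j hjT
            have h1 := hodd j ρ
            have h3 : ComplexEmbedding.conjugate ρ = ρ :=
              ComplexEmbedding.isReal_iff.mp (IsTotallyReal.complexEmbedding_isReal ρ)
            rw [h3] at h1
            linarith
          rw [hz, hz]
    have hvU : (aeval T₁ (X - 1 : Polynomial ℚ)) ur ∈ U := by
      rw [hv]
      exact aeval_mem hU _ _ _ hu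
    have hTp : (T₁ ^ p) (xi (sg 0)) = xi (sg 0) := by rw [hTj, hsgp]
    have : Fact p.Prime := ⟨hp⟩
    have hcyc := Polynomial.cyclotomic_prime_mul_X_sub_one ℚ p
    have hirr : Irreducible (cyclotomic p ℚ) := Polynomial.cyclotomic.irreducible_rat hp.pos
    have hXp : (aeval T₁ (X ^ p - 1 : Polynomial ℚ)) (xi (sg 0)) = 0 := by
      rw [map_sub, map_pow, aeval_X, map_one, LinearMap.sub_apply, hTp, Module.End.one_apply,
        sub_self]
    by_cases hdvd : cyclotomic p ℚ ∣ P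
    · obtain ⟨Q, hQ⟩ := hdvd
      have h1 : (aeval T₁ (X - 1 : Polynomial ℚ)) ur = 0 := by
        rw [show ur = (aeval T₁ P) (xi (sg 0)) from rfl, ← Module.End.mul_apply, ← map_mul]
        have h3 : (X - 1) * P = Q * (X ^ p - 1) := by rw [hQ, ← hcyc]; ring
        rw [h3, map_mul, Module.End.mul_apply, hXp, map_zero]
      intro σ
      rw [hv] at h1
      have h5 := congrArg (fun f => f ⟨i₀, σ⟩) h1
      rw [map_sub, aeval_X, map_one] at h5
      have h6 : T₁ u ⟨i₀, σ⟩ = u ⟨i₀, act τ.symm σ⟩ := rfl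
      simp only [LinearMap.sub_apply, Module.End.one_apply, Pi.sub_apply, Pi.zero_apply] at h5
      rw [h6] at h5
      exact sub_eq_zero.mp h5
    · exfalso
      obtain ⟨a, b, hab⟩ := (hirr.coprime_iff_not_dvd).mpr hdvd
      have h1 : (X - 1 : Polynomial ℚ) = a * (X ^ p - 1) + b * ((X - 1) * P) := by
        calc (X - 1 : Polynomial ℚ) = (a * cyclotomic p ℚ + b * P) * (X - 1) := by
              rw [hab, one_mul]
          _ = a * (cyclotomic p ℚ * (X - 1)) + b * ((X - 1) * P) := by ring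
          _ = _ := by rw [hcyc]
      have h3 : (aeval T₁ (X - 1 : Polynomial ℚ)) (xi (sg 0)) ∈ U := by
        rw [h1, map_add, LinearMap.add_apply, map_mul, Module.End.mul_apply, hXp, map_zero,
          zero_add, map_mul, Module.End.mul_apply, map_mul, Module.End.mul_apply]
        exact aeval_mem hU _ _ _ hvU
      have h5 : (fun u => xi (sg 1) u + xi (conjT (sg 0)) u) ∈ U := by
        have h6 : (fun u => xi (sg 1) u + xi (conjT (sg 0)) u) =
            (aeval T₁ (X - 1 : Polynomial ℚ)) (xi (sg 0)) := by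
          rw [map_sub, aeval_X, map_one, LinearMap.sub_apply, Module.End.one_apply]
          have h7 : T₁ (xi (sg 0)) = xi (sg 1) := by
            have := hTj 1
            rwa [pow_one] at this
          rw [h7]
          funext u
          rw [xi_conj_left, Pi.sub_apply]
          ring
        rw [h6]; exact h3
      have h6 := h2 (sg 1) (conjT (sg 0)) hi₀ rfl h5
      have h7 := congrArg conjT h6
      rw [conjT_conjT, conjT_conjT] at h7
      have h8 := sigma_mk_injective (β := fun i => (L i →+* ℂ)) h7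
      apply hσ₀
      rw [pow_one, pow_zero] at h8
      exact h8.symm
  -- the conclusion
  refine semiInv_of_abs U hU i₀ {σ | ∃ j, σ = ((phi (K := L i₀) τ) ^ j) σ₀} (fun σ => ?_) σ₀
    ⟨0, rfl⟩ ?_
  · obtain ⟨j, hj, h | h⟩ := horb σ
    · exact Or.inl ⟨j, h⟩
    · exact Or.inr ⟨_, ⟨j, rfl⟩, h⟩
  · rintro u hu _ ⟨j, rfl⟩
    induction j with
    | zero => rfl
    | succ j ih =>
      rw [← ih, ← hmain u hu (((phi (K := L i₀) τ) ^ (j + 1)) σ₀)]
      congr 1
      show (⟨i₀, act τ.symm (((phi (K := L i₀) τ) ^ (j + 1)) σ₀)⟩ : Emb L) = sg j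
      rw [pow_succ', Equiv.Perm.mul_apply, phi_apply]
      exact hinv' (sg j)

lemma real_eq_zero {U : Submodule ℚ (Emb L → ℚ)} (hU : IsOddModule L U) (u : Emb L → ℚ)
    (hu : u ∈ U) (j : I) (hj : IsTotallyReal (L j)) (σ : L j →+* ℂ) : u ⟨j, σ⟩ = 0 := by
  have h1 := (hU u hu).1 j σ
  have h3 : ComplexEmbedding.conjugate σ = σ :=
    ComplexEmbedding.isReal_iff.mp (IsTotallyReal.complexEmbedding_isReal σ)
  rw [h3] at h1
  linarith

lemma semi_one {U : Submodule ℚ (Emb L → ℚ)} (hU : IsOddModule L U) (i : I)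
    (hC : IsCMField (L i)) (hdeg : Module.finrank ℚ (L i) = 2) : ∀ u ∈ U, SemiInv i u := by
  intro u hu τ
  have hodd := (hU u hu).1
  have σ₀ : L i →+* ℂ := Classical.choice inferInstance
  rcases Helper84.eq_or_of_two hdeg σ₀ (act τ σ₀) with h | h
  · left
    intro σ
    rcases Helper84.eq_or_of_two hdeg σ₀ σ with rfl | rfl
    · rw [h]
    · rw [act_cc, h]
  · right
    intro σ
    rcases Helper84.eq_or_of_two hdeg σ₀ σ with rfl | rfl
    · rw [h]; exact hodd i σ
    · rw [act_cc, h, cc_cc, hodd, neg_neg]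

lemma zero_two (T : Finset I) (hR : ∀ i, i ∉ T → IsTotallyReal (L i))
    {U : Submodule ℚ (Emb L → ℚ)} (hU : IsOddModule L U)
    (h2 : ∀ s t : Emb L, s.1 ∈ T → t.1 = s.1 → (fun u => xi s u + xi t u) ∈ U → t = conjT s)
    (i₀ : I) (hi₀ : i₀ ∈ T) (hC : IsCMField (L i₀)) (hdeg : Module.finrank ℚ (L i₀) = 4)
    (hno : ¬ HasIQ (L i₀)) (hoth : ∀ j ∈ T, j ≠ i₀ → ∀ u ∈ U, SemiInv j u) :
    ∀ u ∈ U, ∀ σ : L i₀ →+* ℂ, u ⟨i₀, σ⟩ = 0 := by
  classical
  intro u hu σ
  obtain ⟨τ, hτ⟩ := Helper84.exists_sq_conj (L := L i₀) hdeg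
    (fun x q hq hx => hno ⟨q, hq, x, hx⟩)
  have hodd := (hU u hu).1
  let u' : Emb L → ℚ := translate L (τ.trans τ) u - u
  have hu' : u' ∈ U := U.sub_mem ((hU u hu).2 _) hu
  have hval : ∀ (j : I) (ρ : L j →+* ℂ), u' ⟨j, ρ⟩ = u ⟨j, act τ (act τ ρ)⟩ - u ⟨j, ρ⟩ :=
    fun j ρ => rfl
  have h0 : ∀ j ρ, j ≠ i₀ → u' ⟨j, ρ⟩ = 0 := by
    intro j ρ hj
    rw [hval]
    by_cases hjT : j ∈ T
    · rcases hoth j hjT hj u hu τ with h | h
      · rw [h, h, sub_self]
      · rw [h, h, neg_neg, sub_self]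
    · rw [real_eq_zero hU u hu j (hR j hjT), real_eq_zero hU u hu j (hR j hjT), sub_self]
  have hT : ∃ w, IsOdd L w ∧ (∀ j σ, j ≠ i₀ → w ⟨j, σ⟩ = 0) ∧ w ∉ U := by
    refine ⟨fun t => xi ⟨i₀, σ⟩ t + xi ⟨i₀, σ⟩ t, ?_, ?_, fun h => ?_⟩
    · intro j ρ
      have := xi_odd (⟨i₀, σ⟩ : Emb L) j ρ
      simp only [this]; ring
    · intro j ρ hj
      show xi ⟨i₀, σ⟩ ⟨j, ρ⟩ + xi ⟨i₀, σ⟩ ⟨j, ρ⟩ = 0
      rw [Helper84.xi_off (fun h => hj h.symm), add_zero]
    · have h3 := h2 ⟨i₀, σ⟩ ⟨i₀, σ⟩ hi₀ rfl h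
      have h4 := sigma_mk_injective (β := fun i => (L i →+* ℂ)) h3
      exact cc_ne σ h4.symm
  have h5 := Helper84.irr_four hU i₀ hdeg τ hτ hT u' hu' h0
  have h6 : u' ⟨i₀, σ⟩ = 0 := by rw [h5]; rfl
  rw [hval, hτ, hodd] at h6
  linarith

section main

variable (T : Finset I) (g : I → ℕ) (hR : ∀ i, i ∉ T → IsTotallyReal (L i))
    (hC : ∀ i ∈ T, IsCMField (L i))
    (hdeg : ∀ i ∈ T, Module.finrank ℚ (L i) = 2 * g i)
    (hg : ∀ i ∈ T, g i = 1 ∨ ((g i).Prime ∧ (g i = 2 → ¬ HasIQ (L i))))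
    (hinj : ∀ i ∈ T, ∀ j ∈ T, i ≠ j → g i = g j → g i = 1 ∧ ¬ SameIQ (L i) (L j))
    {U : Submodule ℚ (Emb L → ℚ)} (hU : IsOddModule L U)
    (h2 : ∀ s t : Emb L, s.1 ∈ T → t.1 = s.1 → (fun u => xi s u + xi t u) ∈ U → t = conjT s)

include hR hC hdeg hg hinj hU h2 in
lemma semi_all : ∀ i ∈ T, ∀ u ∈ U, SemiInv i u := by
  classical
  have key : ∀ d : ℕ, ∀ i ∈ T, T.sup g - g i = d → ∀ u ∈ U, SemiInv i u := by
    intro d
    induction d using Nat.strong_induction_on with
    | _ d ih =>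
      intro i hi hd
      have hle : ∀ j ∈ T, g j ≤ T.sup g := fun j hj => Finset.le_sup hj
      have hbig : ∀ j ∈ T, g i < g j → ∀ u ∈ U, SemiInv j u := fun j hj hlt =>
        ih (T.sup g - g j) (by have := hle j hj; omega) j hj rfl
      rcases hg i hi with h1 | ⟨hp, hq⟩
      · exact semi_one hU i (hC i hi) (by rw [hdeg i hi, h1])
      · by_cases h3 : g i = 2
        · intro u hu τ
          left
          intro σ
          have h5 := zero_two T hR hU h2 i hi (hC i hi) (by rw [hdeg i hi, h3]) (hq h3)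
            (fun j hj hji => ?_) u hu
          · rw [h5, h5]
          · rcases lt_trichotomy (g j) (g i) with h6 | h6 | h6
            · rcases hg j hj with h7 | ⟨h7, -⟩
              · exact semi_one hU j (hC j hj) (by rw [hdeg j hj, h7])
              · have := h7.two_le
                omega
            · have h7 := (hinj j hj i hi hji h6).1
              omega
            · exact hbig j hj h6
        · refine semi_step T g hR hC hdeg U hU h2 i hi hp h3 (fun j hj h5 => ?_) hbig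
          by_contra hne
          have h7 := (hinj j hj i hi hne h5).1
          rw [h5] at h7
          rw [h7] at hp
          exact Nat.not_prime_one hp
  intro i hi
  exact key _ i hi rfl

omit [∀ i, NumberField (L i)] in
lemma abs_const (i : I) [CharZero (L i)] [Algebra.IsAlgebraic ℚ (L i)] (u : Emb L → ℚ)
    (h : SemiInv i u) (σ σ' : L i →+* ℂ) : |u ⟨i, σ'⟩| = |u ⟨i, σ⟩| := by
  obtain ⟨τ, hτ⟩ := exists_aut σ σ'
  have h1 : act τ σ = σ' := hτ
  rcases h τ with h3 | h3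
  · rw [← h1, h3]
  · rw [← h1, h3, abs_neg]

/-- the field given by components with the same signs -/
lemma exists_field (z : Emb L → ℤ) (hodd : ∀ s, z (conjT s) = - z s) (J : Finset I)
    (hCJ : ∀ i ∈ J, IsCMField (L i)) (hz : ∀ i ∈ J, ∀ σ, z ⟨i, σ⟩ ≠ 0) (hne : J.Nonempty)
    (hs : ∀ τ : ℂ ≃+* ℂ, (∀ i ∈ J, ∀ σ, z ⟨i, act τ σ⟩ = z ⟨i, σ⟩) ∨
      (∀ i ∈ J, ∀ σ, z ⟨i, act τ σ⟩ = - z ⟨i, σ⟩)) :
    ∃ q : ℚ, q < 0 ∧ ∀ i ∈ J, ∃ x : L i, x ^ 2 = (q : L i) := by
  classical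
  obtain ⟨i₀, hi₀⟩ := hne
  have hmem : ∀ i, (if i ∈ J then 1 else 0) ≠ 0 → i ∈ J := by
    intro i h
    by_contra h'
    rw [if_neg h'] at h
    exact h rfl
  obtain ⟨q, hq, h⟩ := WM.exists_sqrt (L := L) (fun i => if i ∈ J then 1 else 0)
    (fun i hi => hCJ i (hmem i hi)) (fun s => if s.1 ∈ J then z s else 0) (fun s hs => by
      have h1 := hmem s.1 hs
      rw [if_pos h1]
      exact hz s.1 h1 s.2) i₀ (by rw [if_pos hi₀]; exact one_ne_zero) (fun τ => by
      rcases hs τ with h | h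
      · left
        intro s
        show (if s.1 ∈ J then z ⟨s.1, act τ s.2⟩ else 0) = if s.1 ∈ J then z s else 0
        by_cases h1 : s.1 ∈ J
        · rw [if_pos h1, if_pos h1, h s.1 h1 s.2]
        · rw [if_neg h1, if_neg h1]
      · right
        intro s
        show (if s.1 ∈ J then z ⟨s.1, act τ s.2⟩ else 0) = - if s.1 ∈ J then z s else 0
        by_cases h1 : s.1 ∈ J
        · rw [if_pos h1, if_pos h1, h s.1 h1 s.2]
        · rw [if_neg h1, if_neg h1, neg_zero]) (fun s => by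
      show (if s.1 ∈ J then z (conjT s) else 0) = - if s.1 ∈ J then z s else 0
      by_cases h1 : s.1 ∈ J
      · rw [if_pos h1, if_pos h1, hodd]
      · rw [if_neg h1, if_neg h1, neg_zero])
  exact ⟨q, hq, fun i hi => h i (by rw [if_pos hi]; exact one_ne_zero)⟩

omit [∀ i, NumberField (L i)] in
/-- isolating a component -/
lemma isolate (hU : IsOddModule L U) (hS : ∀ u ∈ U, ∀ l, SemiInv l u) (i : I) (u : Emb L → ℚ)
    (hu : u ∈ U)
    (J : Finset I) (hJ : ∀ j ∈ J, ∃ (τ : ℂ ≃+* ℂ) (e : ℚ), (e = 1 ∨ e = -1) ∧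
      (∀ σ, u ⟨i, act τ σ⟩ = e * u ⟨i, σ⟩) ∧ (∀ σ, u ⟨j, act τ σ⟩ = - (e * u ⟨j, σ⟩))) :
    ∃ u' ∈ U, (∀ l, ∃ c : ℚ, ∀ σ, u' ⟨l, σ⟩ = c * u ⟨l, σ⟩) ∧
      (∃ c : ℚ, c ≠ 0 ∧ ∀ σ, u' ⟨i, σ⟩ = c * u ⟨i, σ⟩) ∧ ∀ j ∈ J, ∀ σ, u' ⟨j, σ⟩ = 0 := by
  classical
  induction J using Finset.induction_on with
  | empty =>
    exact ⟨u, hu, fun l => ⟨1, fun σ => (one_mul _).symm⟩, ⟨1, one_ne_zero,
      fun σ => (one_mul _).symm⟩, fun j hj => absurd hj (Finset.notMem_empty j)⟩
  | insert j J hjJ ih =>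
    obtain ⟨u', hu', h1, ⟨c, hc, h3⟩, h5⟩ := ih fun j hj => hJ j (Finset.mem_insert_of_mem hj)
    obtain ⟨τ, e, he, h7, h8⟩ := hJ j (Finset.mem_insert_self j J)
    have hval : ∀ (k : I) (σ : L k →+* ℂ), (u' + e • translate L τ u') ⟨k, σ⟩ =
        u' ⟨k, σ⟩ + e * u' ⟨k, act τ σ⟩ := fun k σ => rfl
    have hee : e * e = 1 := by rcases he with rfl | rfl <;> norm_num
    refine ⟨u' + e • translate L τ u', U.add_mem hu' (U.smul_mem _ ((hU u' hu').2 τ)),
      fun l => ?_, ⟨2 * c, mul_ne_zero two_ne_zero hc, fun σ => ?_⟩, fun k hk σ => ?_⟩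
    · obtain ⟨d, hd⟩ := h1 l
      rcases hS u hu l τ with h9 | h9
      · exact ⟨d * (1 + e), fun σ => by rw [hval, hd, hd, h9]; ring⟩
      · exact ⟨d * (1 - e), fun σ => by rw [hval, hd, hd, h9]; ring⟩
    · rw [hval, h3, h3, h7]
      linear_combination c * u ⟨i, σ⟩ * hee
    · rw [hval]
      rcases Finset.mem_insert.1 hk with rfl | hk'
      · obtain ⟨d, hd⟩ := h1 k
        rw [hd, hd, h8]
        linear_combination - d * u ⟨k, σ⟩ * hee
      · rw [h5 k hk', h5 k hk', mul_zero, add_zero]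

variable [Fintype I] (n : I → ℕ) (k : ℕ)

include hR hC hdeg hg hinj hU h2 in
/-- no exceptional relations of small weight between simple CM factors of distinct prime
dimensions and elliptic curves -/
theorem prime_fam (hk : ∀ i ∈ T, ∀ j ∈ T, n i ≠ 0 → n j ≠ 0 → HasIQ (L i) → HasIQ (L j) →
      ((i ≠ j ∧ (g i = 1 ∨ g j = 1 → SameIQ (L i) (L j))) ∨ (i = j ∧ 2 ≤ n i ∧ g i ≠ 1)) →
      2 * k < g i + g j)
    (z : Emb L → ℤ) (hzU : (fun s => (z s : ℚ)) ∈ U) (hzn : ∀ s, |z s| ≤ n s.1)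
    (h4 : ∃ m : ℤ, ∑ s, |z s| = 4 * m) (hk4 : ∑ s, |z s| ≤ 4 * k) : ∀ s, z s = 0 := by
  classical
  have hS0 := semi_all T g hR hC hdeg hg hinj hU h2
  have hS : ∀ u ∈ U, ∀ l, SemiInv l u := by
    intro u hu l
    by_cases hl : l ∈ T
    · exact hS0 l hl u hu
    · intro τ
      left
      intro σ
      rw [real_eq_zero hU u hu l (hR l hl), real_eq_zero hU u hu l (hR l hl)]
  have hzodd : ∀ s, z (conjT s) = - z s := by
    intro s
    have h1 := (hU _ hzU).1 s.1 s.2
    simp only at h1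
    exact_mod_cast h1
  have hsemi : ∀ (τ : ℂ ≃+* ℂ) (i : I), (∀ σ : L i →+* ℂ, z ⟨i, act τ σ⟩ = z ⟨i, σ⟩) ∨
      (∀ σ : L i →+* ℂ, z ⟨i, act τ σ⟩ = - z ⟨i, σ⟩) := by
    intro τ i
    rcases hS _ hzU i τ with h | h
    · left
      intro σ
      have h1 := h σ
      simp only at h1
      exact_mod_cast h1
    · right
      intro σ
      have h1 := h σ
      simp only at h1
      exact_mod_cast h1
  choose σ₀ hσ₀ using fun i => (⟨Classical.choice inferInstance, trivial⟩ :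
    ∃ _ : L i →+* ℂ, True)
  obtain ⟨c, hc⟩ : ∃ c : I → ℤ, ∀ i, c i = |z ⟨i, σ₀ i⟩| := ⟨_, fun _ => rfl⟩
  have hcσ : ∀ i (σ : L i →+* ℂ), |z ⟨i, σ⟩| = c i := by
    intro i σ
    have h1 : |((z ⟨i, σ⟩ : ℤ) : ℚ)| = |((z ⟨i, σ₀ i⟩ : ℤ) : ℚ)| :=
      abs_const i _ (hS _ hzU i) (σ₀ i) σ
    rw [hc]
    exact_mod_cast h1
  have hc0 : ∀ i, 0 ≤ c i := fun i => by rw [hc]; exact abs_nonneg _
  have hcne : ∀ i, c i ≠ 0 → ∀ σ : L i →+* ℂ, z ⟨i, σ⟩ ≠ 0 := by
    intro i hi σ h
    apply hi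
    rw [← hcσ i σ, h, abs_zero]
  have hcT : ∀ i, c i ≠ 0 → i ∈ T := by
    intro i hi
    by_contra hT
    have h1 := real_eq_zero hU _ hzU i (hR i hT) (σ₀ i)
    exact hcne i hi (σ₀ i) (by exact_mod_cast h1)
  have hcn : ∀ i, c i ≤ n i := fun i => by rw [hc]; exact hzn _
  have hn0 : ∀ i, c i ≠ 0 → n i ≠ 0 := by
    intro i hi h
    have h1 := hcn i
    rw [h] at h1
    have h3 := hc0 i
    apply hi
    push_cast at h1
    omega
  have hsum : ∑ s, |z s| = ∑ i ∈ T, 2 * (g i : ℤ) * c i := by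
    rw [Fintype.sum_sigma]
    have h1 : ∀ i, ∑ σ : L i →+* ℂ, |z ⟨i, σ⟩| = (Module.finrank ℚ (L i) : ℤ) * c i := by
      intro i
      rw [Finset.sum_congr rfl (fun σ _ => hcσ i σ), Finset.sum_const, Finset.card_univ,
        NumberField.Embeddings.card, nsmul_eq_mul]
    rw [Finset.sum_congr rfl (fun i _ => h1 i)]
    rw [← Finset.sum_subset (Finset.subset_univ T) (fun i _ hi => by
      have : c i = 0 := by
        by_contra h
        exact hi (hcT i h)
      rw [this, mul_zero])]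
    refine Finset.sum_congr rfl fun i hi => ?_
    rw [hdeg i hi]
    push_cast; ring
  have hterm : ∀ i, 0 ≤ 2 * (g i : ℤ) * c i := fun i =>
    mul_nonneg (by positivity) (hc0 i)
  have htwo : ∀ i ∈ T, ∀ j ∈ T, i ≠ j → 2 * (g i : ℤ) * c i + 2 * (g j : ℤ) * c j ≤ 4 * k := by
    intro i hi j hj hij
    refine le_trans ?_ hk4
    rw [hsum]
    have h1 : ∑ l ∈ ({i, j} : Finset I), 2 * (g l : ℤ) * c l =
        2 * (g i : ℤ) * c i + 2 * (g j : ℤ) * c j := Finset.sum_pair hij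
    rw [← h1]
    refine Finset.sum_le_sum_of_subset_of_nonneg ?_ (fun l _ _ => hterm l)
    intro l hl
    rcases Finset.mem_insert.mp hl with rfl | hl
    · exact hi
    · rw [Finset.mem_singleton] at hl
      rw [hl]; exact hj
  have htwo' : ∀ i ∈ T, ∀ j ∈ T, i ≠ j → c i ≠ 0 → c j ≠ 0 → g i + g j ≤ 2 * k := by
    intro i hi j hj hij h1 h3
    have h5 := htwo i hi j hj hij
    have h6 : (1 : ℤ) ≤ c i := by have := hc0 i; omega
    have h7 : (1 : ℤ) ≤ c j := by have := hc0 j; omega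
    have h8 : (g i : ℤ) ≤ (g i : ℤ) * c i := le_mul_of_one_le_right (by positivity) h6
    have h9 : (g j : ℤ) ≤ (g j : ℤ) * c j := le_mul_of_one_le_right (by positivity) h7
    have h10 : (g i : ℤ) + g j ≤ 2 * k := by nlinarith
    exact_mod_cast h10
  have hIQ : ∀ i, c i ≠ 0 → HasIQ (L i) := by
    intro i hi
    obtain ⟨q, hq, h⟩ := exists_field z hzodd {i} (fun j hj => by
        rw [Finset.mem_singleton] at hj; subst hj; exact hC j (hcT j hi))
      (fun j hj => by
        rw [Finset.mem_singleton] at hj; subst hj; exact hcne j hi)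
      (Finset.singleton_nonempty i) (fun τ => by
        rcases hsemi τ i with h | h
        · left
          intro j hj
          rw [Finset.mem_singleton] at hj; subst hj; exact h
        · right
          intro j hj
          rw [Finset.mem_singleton] at hj; subst hj; exact h)
    exact ⟨q, hq, h i (Finset.mem_singleton_self i)⟩
  -- elliptic curves
  have hell : ∀ i ∈ T, g i = 1 → c i = 0 := by
    intro i hi hgi
    by_contra hci
    have := hC i hi
    by_cases hsep : ∀ j, j ≠ i → c j ≠ 0 → ∃ τ : ℂ ≃+* ℂ,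
        ((∀ σ, z ⟨i, act τ σ⟩ = z ⟨i, σ⟩) ∧ (∀ σ, z ⟨j, act τ σ⟩ = - z ⟨j, σ⟩)) ∨
        ((∀ σ, z ⟨i, act τ σ⟩ = - z ⟨i, σ⟩) ∧ (∀ σ, z ⟨j, act τ σ⟩ = z ⟨j, σ⟩))
    · obtain ⟨u', hu', h1, ⟨d, hd, h3⟩, h5⟩ := isolate hU hS i _ hzU
        (Finset.univ.filter (fun j => j ≠ i ∧ c j ≠ 0)) (fun j hj => by
          obtain ⟨-, hji, hcj⟩ := Finset.mem_filter.mp hj
          obtain ⟨τ, ⟨h1, h3⟩ | ⟨h1, h3⟩⟩ := hsep j hji hcj
          · refine ⟨τ, 1, Or.inl rfl, fun σ => ?_, fun σ => ?_⟩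
            · rw [h1, one_mul]
            · rw [h3, one_mul]; push_cast; rfl
          · refine ⟨τ, -1, Or.inr rfl, fun σ => ?_, fun σ => ?_⟩
            · rw [h1]; push_cast; ring
            · rw [h3]; push_cast; ring)
      have h6 : ∀ j, j ≠ i → ∀ σ : L j →+* ℂ, u' ⟨j, σ⟩ = 0 := by
        intro j hj σ
        by_cases hcj : c j = 0
        · obtain ⟨e, he⟩ := h1 j
          have h7 : z ⟨j, σ⟩ = 0 := by
            have := hcσ j σ
            rw [hcj] at this
            exact abs_eq_zero.mp this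
          rw [he]
          simp only [h7]
          push_cast; ring
        · exact h5 j (Finset.mem_filter.mpr ⟨Finset.mem_univ _, hj, hcj⟩) σ
      have hd2 : Module.finrank ℚ (L i) = 2 := by rw [hdeg i hi, hgi]
      have h7 : xi (⟨i, σ₀ i⟩ : Emb L) ∈ U := by
        have hodd' := (hU u' hu').1
        have h8 : u' ⟨i, σ₀ i⟩ ≠ 0 := by
          rw [h3]
          exact mul_ne_zero hd (by
            have := hcne i hci (σ₀ i)
            exact_mod_cast this)
        have h9 : xi (⟨i, σ₀ i⟩ : Emb L) = (u' ⟨i, σ₀ i⟩)⁻¹ • u' := by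
          have hne : conjT (⟨i, σ₀ i⟩ : Emb L) ≠ ⟨i, σ₀ i⟩ := fun h =>
            cc_ne (σ₀ i) (sigma_mk_injective (β := fun i => (L i →+* ℂ)) h)
          funext t
          obtain ⟨j, σ⟩ := t
          rw [Pi.smul_apply, smul_eq_mul]
          by_cases hj : j = i
          · subst hj
            rcases Helper84.eq_or_of_two hd2 (σ₀ j) σ with h | h
            · rw [h, Helper84.xi_self hne, inv_mul_cancel₀ h8]
            · rw [h]
              have e1 : xi (⟨j, σ₀ j⟩ : Emb L) ⟨j, ComplexEmbedding.conjugate (σ₀ j)⟩ =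
                  - xi (⟨j, σ₀ j⟩ : Emb L) ⟨j, σ₀ j⟩ :=
                xi_conj_right (⟨j, σ₀ j⟩ : Emb L) (⟨j, σ₀ j⟩ : Emb L)
              rw [e1, Helper84.xi_self hne, hodd', mul_neg, inv_mul_cancel₀ h8]
          · rw [Helper84.xi_off (fun h => hj h.symm), h6 j hj, mul_zero]
        rw [h9]
        exact U.smul_mem _ hu'
      have h8 : (fun u => xi (⟨i, σ₀ i⟩ : Emb L) u + xi (⟨i, σ₀ i⟩ : Emb L) u) ∈ U :=
        U.add_mem h7 h7
      exact cc_ne (σ₀ i) (sigma_mk_injective (β := fun i => (L i →+* ℂ))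
        (h2 _ _ hi rfl h8)).symm
    · push Not at hsep
      obtain ⟨j, hji, hcj, hns⟩ := hsep
      have hjT := hcT j hcj
      obtain ⟨q, hq, h⟩ := exists_field z hzodd {i, j} (fun l hl => by
          rcases Finset.mem_insert.mp hl with rfl | hl
          · exact hC l hi
          · rw [Finset.mem_singleton] at hl; subst hl; exact hC l hjT)
        (fun l hl => by
          rcases Finset.mem_insert.mp hl with rfl | hl
          · exact hcne l hci
          · rw [Finset.mem_singleton] at hl; subst hl; exact hcne l hcj)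
        ⟨i, Finset.mem_insert_self i _⟩ (fun τ => by
          obtain ⟨h1, h3⟩ := hns τ
          rcases hsemi τ i with h5 | h5
          · left
            intro l hl
            rcases Finset.mem_insert.mp hl with rfl | hl
            · exact h5
            · rw [Finset.mem_singleton] at hl; subst hl
              rcases hsemi τ l with h6 | h6
              · exact h6
              · obtain ⟨ρ, hρ⟩ := h1 h5
                exact absurd (h6 ρ) hρ
          · right
            intro l hl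
            rcases Finset.mem_insert.mp hl with rfl | hl
            · exact h5
            · rw [Finset.mem_singleton] at hl; subst hl
              rcases hsemi τ l with h6 | h6
              · obtain ⟨ρ, hρ⟩ := h3 h5
                exact absurd (h6 ρ) hρ
              · exact h6)
      have hsame : SameIQ (L i) (L j) := ⟨q, hq, h i (by simp), h j (by simp)⟩
      have h1 := hk i hi j hjT (hn0 i hci) (hn0 j hcj) (hIQ i hci) (hIQ j hcj)
        (Or.inl ⟨hji.symm, fun _ => hsame⟩)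
      have h3 := htwo' i hi j hjT hji.symm hci hcj
      omega
  have hprime : ∀ i, c i ≠ 0 → (g i).Prime ∧ g i ≠ 1 := by
    intro i hi
    rcases hg i (hcT i hi) with h | h
    · exact absurd (hell i (hcT i hi) h) hi
    · exact ⟨h.1, h.1.one_lt.ne'⟩
  have huniq : ∀ i j, c i ≠ 0 → c j ≠ 0 → i = j := by
    intro i j hi hj
    by_contra hij
    have h1 := hk i (hcT i hi) j (hcT j hj) (hn0 i hi) (hn0 j hj) (hIQ i hi) (hIQ j hj)
      (Or.inl ⟨hij, fun h => by
        rcases h with h | h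
        · exact absurd h (hprime i hi).2
        · exact absurd h (hprime j hj).2⟩)
    have h3 := htwo' i (hcT i hi) j (hcT j hj) hij hi hj
    omega
  have hall : ∀ i, c i = 0 := by
    intro i
    by_contra hci
    have hiT := hcT i hci
    obtain ⟨hp, h1⟩ := hprime i hci
    have hsum' : ∑ s, |z s| = 2 * (g i : ℤ) * c i := by
      rw [hsum]
      refine Finset.sum_eq_single i (fun j _ hji => ?_) (fun h => absurd hiT h)
      have : c j = 0 := by
        by_contra hcj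
        exact hji (huniq j i hcj hci)
      rw [this, mul_zero]
    have h3 : g i ≠ 2 := by
      intro h3
      rcases hg i hiT with h | h
      · exact h1 h
      have h5 := zero_two T hR hU h2 i hiT (hC i hiT) (by rw [hdeg i hiT, h3]) (h.2 h3)
        (fun j hj _ u hu => hS u hu j) _ hzU (σ₀ i)
      exact hcne i hci (σ₀ i) (by exact_mod_cast h5)
    have hodd : Odd (g i) := hp.odd_of_ne_two h3
    obtain ⟨m, hm⟩ := h4
    rw [hsum'] at hm hk4
    have heven : Even (c i) := by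
      have h5 : (g i : ℤ) * c i = 2 * m := by linarith
      have h6 : Even ((g i : ℤ) * c i) := ⟨m, by rw [h5]; ring⟩
      rcases Int.even_mul.mp h6 with h7 | h7
      · exfalso
        have h8 : Even (g i) := by exact_mod_cast h7
        exact (Nat.not_even_iff_odd.mpr hodd) h8
      · exact h7
    have hc2 : (2 : ℤ) ≤ c i := by
      obtain ⟨d, hd⟩ := heven
      have := hc0 i
      omega
    have hn2 : 2 ≤ n i := by
      have := hcn i
      have h5 : (2 : ℤ) ≤ n i := le_trans hc2 this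
      exact_mod_cast h5
    have h5 := hk i hiT i hiT (hn0 i hci) (hn0 i hci) (hIQ i hci) (hIQ i hci)
      (Or.inr ⟨rfl, hn2, h1⟩)
    have h6 : 2 * (g i : ℤ) ≤ (g i : ℤ) * c i := by
      have h7 : (0 : ℤ) ≤ g i := by positivity
      nlinarith
    have h7 : (g i : ℤ) + g i ≤ 2 * k := by linarith
    have h8 : g i + g i ≤ 2 * k := by exact_mod_cast h7
    omega
  rintro ⟨i, σ⟩
  have h1 := hcσ i σ
  rw [hall i] at h1
  exact abs_eq_zero.mp h1

end main

end fam

end Pool.Agent.Helper28.GPC
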