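import Pool.Agent.Helper7.SmallG
import Pool.Agent.Helper28.GPC.PrimeFam

/-!
Slot functions all of whose labels have spaces of dimension at most two: only relations between the
weights whose size is bounded in terms of the degree matter.
-/

namespace Pool.Agent.Helper28.GPC

open Module NumberField LieAlgebra

attribute [local instance 100] LieRing.ofAssociativeRing

open Pool.Agent.GPC Pool.Agent.Helper7
open Pool.Agent.Helper84 (xi)
open Pool.Agent.Helper8 (Symp Principal SF SF0 PS symG perfect_of_killing)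

set_option linter.unusedSectionVars false

section family

variable {I : Type} [Fintype I] [DecidableEq I] (n : I → ℕ)
  {κ : I → Type} [∀ i, Fintype (κ i)] [∀ i, DecidableEq (κ i)] {ϖ : ℂ}
  (P : ∀ i, PData (κ i) ϖ)
  {K : I → Type} [∀ i, Field (K i)] [∀ i, NumberField (K i)]
  (F : ∀ i, FS (P i) (K i))
  {k : ℕ} (α : MultilinearMap ℂ (fun _ : Fin (2 * k) => HW κ n) ℂ)
  (ok : I → Prop)

/-- the balance of a pattern -/
lemma balance_ofK (hre : ∀ i, (F i).isLeft → ∀ σ : K i →+* ℂ, ComplexEmbedding.conjugate σ = σ)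
    (hNE : ∀ z : Emb K → ℤ, (fun t => (z t : ℚ)) ∈ relS n P F α → (∀ t, |z t| ≤ n t.1) →
      (∃ m : ℤ, ∑ t, |z t| = 4 * m) → ∑ t, |z t| ≤ 4 * k →
        ∀ t, ¬ (F t.1).isLeft → z t = 0)
    (m : ℕ) (hmk : m ≤ k) (p : Fin (2 * m) → At n K)
    (hinj : ∀ r r', ¬ (F (p r).1).isLeft → p r = p r' → r = r')
    (heven : Even (open Classical in Finset.univ.filter
      (fun r => (F (p r).1).isLeft)).card)
    (hwt : ∀ X, IsInv n P α X → ∑ r, chiC P F (pl n (p r)) X = m * X.2) (t : Emb K)
    (ht : ¬ (F t.1).isLeft) :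
    (open Classical in (Finset.univ.filter (fun r => pl n (p r) = t)).card =
      (Finset.univ.filter (fun r => pl n (p r) = conjT t)).card) := by
  classical
  obtain ⟨q, hq⟩ : ∃ q : Fin (2 * m) → Emb K, q = fun r => pl n (p r) := ⟨_, rfl⟩
  have hq' : ∀ r, pl n (p r) = q r := fun r => by rw [hq]
  obtain ⟨c, hc⟩ : ∃ c : Emb K → ℕ, ∀ t, c t =
      (Finset.univ.filter (fun r => q r = t)).card := ⟨_, fun _ => rfl⟩
  let z : Emb K → ℤ := fun t => (c t : ℤ) - c (conjT t)
  have hz0 : ∀ t : Emb K, (F t.1).isLeft → z t = 0 := by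
    rintro ⟨i, σ⟩ h
    have h2 : conjT (⟨i, σ⟩ : Emb K) = ⟨i, σ⟩ := by
      show (⟨i, ComplexEmbedding.conjugate σ⟩ : Emb K) = ⟨i, σ⟩
      rw [hre i h σ]
    simp only [z, h2, sub_self]
  have hcn : ∀ t : Emb K, ¬ (F t.1).isLeft → c t ≤ n t.1 := by
    intro t ht
    rw [hc]
    have hsub : (Finset.univ.filter (fun r => q r = t)).image p ⊆
        Finset.univ.image (fun m : Fin (n t.1) => (⟨t.1, m, t.2⟩ : At n K)) := by
      intro a ha
      obtain ⟨r, hr, rfl⟩ := Finset.mem_image.mp ha
      have h2 := (Finset.mem_filter.mp hr).2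
      rw [← hq'] at h2
      generalize p r = a at h2
      obtain ⟨i, m, σ⟩ := a
      subst h2
      exact Finset.mem_image.mpr ⟨m, Finset.mem_univ _, rfl⟩
    calc (Finset.univ.filter (fun r => q r = t)).card
        = ((Finset.univ.filter (fun r => q r = t)).image p).card := by
          refine (Finset.card_image_of_injOn ?_).symm
          intro r hr r' _ h
          have h2 := (Finset.mem_filter.mp (Finset.mem_coe.mp hr)).2
          exact hinj r r' (by
            have h3 : (F (q r).1).isLeft = (F t.1).isLeft := by rw [h2]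
            rw [← hq'] at h3
            intro h4
            exact ht (h3 ▸ h4)) h
      _ ≤ _ := Finset.card_le_card hsub
      _ ≤ _ := Finset.card_image_le
      _ = n t.1 := by rw [Finset.card_univ, Fintype.card_fin]
  have hzn : ∀ t, |z t| ≤ n t.1 := by
    intro t
    by_cases h : (F t.1).isLeft
    · rw [hz0 t h]; simp
    · have h2 := hcn t h
      have h3 : c (conjT t) ≤ n t.1 := hcn (conjT t) h
      simp only [z]
      rw [abs_le]
      constructor <;> omega
  have hzU : (fun t => (z t : ℚ)) ∈ relS n P F α := by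
    have h2 := count_mem_relS n P F α m q (fun X hX => by
      rw [← hwt X hX]
      exact Finset.sum_congr rfl fun r _ => by rw [hq'])
    have h3 : (fun t => (z t : ℚ)) = fun t => ((Finset.univ.filter (fun r => q r = t)).card : ℚ) -
        (Finset.univ.filter (fun r => q r = conjT t)).card := by
      funext t
      simp only [z, hc]
      push_cast
      rfl
    rw [h3]
    exact h2
  -- parity
  have hpar : (∃ m : ℤ, ∑ t, |z t| = 4 * m) ∧ ∑ t, |z t| ≤ 4 * k := by
    let N : Finset (Emb K) := Finset.univ.filter (fun t => ¬ (F t.1).isLeft)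
    have hNc : ∀ t ∈ N, conjT t ∈ N := by
      intro t ht
      rw [Finset.mem_filter] at ht ⊢
      exact ⟨Finset.mem_univ _, ht.2⟩
    have hNne : ∀ t ∈ N, conjT t ≠ t := by
      rintro ⟨i, σ⟩ ht h
      exact (F i).conj_ne (Finset.mem_filter.mp ht).2 σ
        (sigma_mk_injective (β := fun i => (K i →+* ℂ)) h)
    have e1 : ∑ t, |z t| = ∑ t ∈ N, |z t| := by
      symm
      refine Finset.sum_subset (Finset.subset_univ _) fun t _ ht => ?_
      rw [Finset.mem_filter, not_and, not_not] at ht
      rw [hz0 t (ht (Finset.mem_univ _)), abs_zero]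
    have e2 : ∀ t, |z t| = (c t : ℤ) + c (conjT t) - 2 * ((min (c t) (c (conjT t)) : ℕ) : ℤ) := by
      intro t
      simp only [z]
      rcases le_total (c t) (c (conjT t)) with h | h
      · rw [min_eq_left h, abs_of_nonpos (by omega)]; ring
      · rw [min_eq_right h, abs_of_nonneg (by omega)]; ring
    obtain ⟨m1, hm1⟩ := even_sum_of_symm N conjT conjT_conjT hNc hNne
      (fun t => ((min (c t) (c (conjT t)) : ℕ) : ℤ)) (fun t _ => by
        show ((min (c (conjT t)) (c (conjT (conjT t))) : ℕ) : ℤ) = _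
        rw [conjT_conjT, min_comm])
    -- the number of slots of the second kind
    have e3 : ∑ t ∈ N, (c (conjT t) : ℤ) = ∑ t ∈ N, (c t : ℤ) := by
      refine Finset.sum_nbij' conjT conjT hNc hNc (fun t _ => conjT_conjT t)
        (fun t _ => conjT_conjT t) (fun t _ => rfl)
    have e4 : ∑ t ∈ N, (c t : ℤ) = 2 * m -
        (Finset.univ.filter (fun r => (F (p r).1).isLeft)).card := by
      have h2 : ∑ t ∈ N, c t = (Finset.univ.filter (fun r => ¬ (F (q r).1).isLeft)).card := by
        rw [Finset.card_eq_sum_card_fiberwise (f := q) (t := N) (fun r hr => by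
          rw [Finset.mem_coe, Finset.mem_filter] at hr ⊢
          exact ⟨Finset.mem_univ _, hr.2⟩)]
        refine Finset.sum_congr rfl fun t ht => ?_
        rw [hc]
        congr 1
        ext r
        simp only [Finset.mem_filter, Finset.mem_univ, true_and]
        constructor
        · intro h
          exact ⟨by rw [h]; exact (Finset.mem_filter.mp ht).2, h⟩
        · intro h; exact h.2
      have h3 : (Finset.univ.filter (fun r => (F (p r).1).isLeft)).card +
          (Finset.univ.filter (fun r => ¬ (F (q r).1).isLeft)).card = 2 * m := by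
        have h4 : (Finset.univ.filter (fun r => ¬ (F (q r).1).isLeft)) =
            (Finset.univ.filter (fun r => ¬ (F (p r).1).isLeft)) := by
          rw [hq]
        rw [h4, Finset.card_filter_add_card_filter_not, Finset.card_univ, Fintype.card_fin]
      have h5 : ((∑ t ∈ N, c t : ℕ) : ℤ) = ∑ t ∈ N, (c t : ℤ) := by push_cast; rfl
      rw [← h5, h2]
      omega
    obtain ⟨m2, hm2⟩ := heven
    have hm2' : (((Finset.univ.filter (fun r => (F (p r).1).isLeft)).card : ℕ) : ℤ) = m2 + m2 := by
      rw [← Nat.cast_add, ← hm2]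
    refine ⟨⟨m - m2 - m1, ?_⟩, ?_⟩
    · rw [e1, Finset.sum_congr rfl fun t _ => e2 t, Finset.sum_sub_distrib,
        Finset.sum_add_distrib, ← Finset.mul_sum, e3, e4, hm1]
      rw [hm2']
      ring
    · have e5 : ∑ t ∈ N, |z t| ≤ ∑ t ∈ N, ((c t : ℤ) + c (conjT t)) := by
        refine Finset.sum_le_sum fun t _ => ?_
        rw [e2]
        have : (0 : ℤ) ≤ ((min (c t) (c (conjT t)) : ℕ) : ℤ) := by positivity
        omega
      rw [e1]
      refine e5.trans ?_
      rw [Finset.sum_add_distrib, e3, e4, hm2']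
      have h6 : (m : ℤ) ≤ k := by exact_mod_cast hmk
      omega
  have h2 := hNE z hzU hzn hpar.1 hpar.2 t ht
  have h3 : c t = c (conjT t) := by
    simp only [z] at h2
    omega
  rw [hc, hc] at h3
  simp only [hq']
  exact h3

end family

section family

variable {I : Type} [Fintype I] [DecidableEq I] (n : I → ℕ)
  {κ : I → Type} [∀ i, Fintype (κ i)] [∀ i, DecidableEq (κ i)] {ϖ : ℂ}
  (P : ∀ i, PData (κ i) ϖ)
  {K : I → Type} [∀ i, Field (K i)] [∀ i, NumberField (K i)]
  (F : ∀ i, FS (P i) (K i))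
  {k : ℕ} (α : MultilinearMap ℂ (fun _ : Fin (2 * k) => HW κ n) ℂ)
  (ok : I → Prop)
  (b : ∀ s : Emb K, ok s.1 → (F s.1).isLeft → Basis (Fin 2) ℂ (Vs n P F α s))
  (hsj : ∀ s : Emb K, ok s.1 → (F s.1).isLeft → ∀ Y : Module.End ℂ (Vs n P F α s),
    LinearMap.trace ℂ _ Y = 0 → ∃ X, IsInv n P α X ∧ actV n P F α s (X.1 s.1) = Y)
  (htr : ∀ s : Emb K, ok s.1 → (F s.1).isLeft → ∀ X, IsInv n P α X →
    LinearMap.trace ℂ _ (actV n P F α s (X.1 s.1)) = X.2)

include b hsj htr in
theorem small_coreK (hre : ∀ i, (F i).isLeft → ∀ σ : K i →+* ℂ, ComplexEmbedding.conjugate σ = σ)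
    (hNE : ∀ z : Emb K → ℤ, (fun t => (z t : ℚ)) ∈ relS n P F α → (∀ t, |z t| ≤ n t.1) →
      (∃ m : ℤ, ∑ t, |z t| = 4 * m) → ∑ t, |z t| ≤ 4 * k →
        ∀ t, ¬ (F t.1).isLeft → z t = 0)
    {R : Type*} [DecidableEq R] {T : Finset R} {q : R → At n K} {Φ : (R → HW κ n) → ℂ}
    (hev : Even T.card) (hTk : T.card ≤ 2 * k) (hΦ : SF (symG n P α) (EE n P F) q T Φ) (hq : ∀ r ∈ T, ok (q r).1) :
    Φ ∈ PS (invB n P α) T := by
  classical
  obtain ⟨m, hm⟩ := hev
  have hcard : T.card = 2 * m := by omega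
  obtain ⟨x, hx, hxT, himg⟩ : ∃ x : Fin (2 * m) → R, Function.Injective x ∧ (∀ a, x a ∈ T) ∧
      Finset.univ.image x = T := by
    let e := (Finset.equivFinOfCardEq hcard).symm
    refine ⟨fun a => (e a : R), fun a c h => e.injective (Subtype.ext h), fun a => (e a).2, ?_⟩
    ext r
    rw [Finset.mem_image]
    constructor
    · rintro ⟨a, -, rfl⟩; exact (e a).2
    · intro hr
      exact ⟨e.symm ⟨r, hr⟩, Finset.mem_univ _, by rw [Equiv.apply_symm_apply]⟩
  have h0 : SF0 (EE n P F) q T Φ := hΦ.toSF0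
  obtain ⟨M, hM⟩ : ∃ M, M = slotM h0 (W2 n P F ok) x hx hxT := ⟨_, rfl⟩
  have hMa : ∀ v, M v = Φ (Function.extend x (fun a => (v a : HW κ n)) 0) := by
    intro v; rw [hM]; rfl
  set S' := preSmall n P F α ok b hsj htr with hS'
  set S := S'.toFrames with hS
  have hspan : M ∈ Submodule.span ℂ (S.invProd m) := by
    refine S.main_fft M ?_ ?_
    · intro X v
      have h1 := hΦ.inv (lift n X.1.1, X.1.2) ⟨X.1, X.2, rfl⟩
        (Function.extend x (fun a => (v a : HW κ n)) 0)
      have h2 : ∑ t ∈ T, Φ (Function.update (Function.extend x (fun a => (v a : HW κ n)) 0) t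
          (lift n X.1.1 (Function.extend x (fun a => (v a : HW κ n)) 0 t))) =
          ∑ r, M (Function.update v r (S.L X (v r))) := by
        rw [← himg, Finset.sum_image (fun a _ c _ h => hx h)]
        refine Finset.sum_congr rfl fun r _ => ?_
        rw [hMa, coe_update, extend_update x hx, hx.extend_apply]
        rfl
      have h3 : S.c X = X.1.2 := rfl
      beta_reduce at h1
      rw [h2, hcard] at h1
      rw [h3, hMa]
      push_cast at h1
      linear_combination h1 / 2
    · rintro p ⟨j, hj⟩ heven hw t ht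
      have hfin : ∀ j : Fin 2, j = 0 ∨ j = 1 := by
        intro j; fin_cases j <;> simp
      obtain ⟨w, hw0⟩ : ∃ w, w = Function.extend x (fun a => ((S.e (p a) (j a) : W2 n P F ok) :
        HW κ n)) 0 := ⟨_, rfl⟩
      have hwx : ∀ a, w (x a) = ((S.e (p a) (j a) : W2 n P F ok) : HW κ n) := by
        intro a; rw [hw0, hx.extend_apply]
      have hΦw : Φ w ≠ 0 := by
        intro h; apply hj; rw [hMa, ← hw0]; exact h
      have hEe : ∀ (Q : {t : At n K // ok t.1}) (j : Fin 2),
          EE n P F Q.1 ((S.e Q j : W2 n P F ok) : HW κ n) = ((S.e Q j : W2 n P F ok) : HW κ n) :=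
        fun Q j => EE_frame n P F α ok b hsj htr Q j
      -- the labels
      have hlab : ∀ a, (p a).1 = q (x a) := by
        intro a
        by_contra hne
        apply hΦw
        rw [← h0.lab (x a) (hxT a) w, hwx, ← hEe, EE_EE, if_neg (Ne.symm hne)]
        exact h0.zero _ (x a) (hxT a) (Function.update_self _ _ _)
      have hj0 : ∀ a, ¬ (F (p a).1.1).isLeft → j a = 0 := by
        intro a ha
        rcases hfin (j a) with h | h
        · exact h
        · exfalso
          apply hj
          apply M.map_coord_zero a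
          show S.e (p a) (j a) = 0
          rw [h]
          exact S.e_one _ ha
      have hinj : ∀ a a', ¬ (F (p a).1.1).isLeft → (p a).1 = (p a').1 → a = a' := by
        intro a a' ha h
        by_contra hne
        have hp : p a = p a' := Subtype.ext h
        have ha' : ¬ (F (p a').1.1).isLeft := by rw [← hp]; exact ha
        apply hΦw
        refine h0.eq_zero_of_eq w (x a) (x a') (hxT a) (hxT a') (hx.ne hne) ?_ ?_
        · rw [← hlab, ← hlab, h]
        · rw [hwx, hwx, hj0 a ha, hj0 a' ha', hp]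
      have heven' : Even (Finset.univ.filter (fun r => (F (p r).1.1).isLeft)).card := by
        have h4 : S.glSlots p = Finset.univ.filter (fun r => (F (p r).1.1).isLeft) := by
          ext r
          rw [S.mem_glSlots, Finset.mem_filter]
          exact ⟨fun h => ⟨Finset.mem_univ _, h⟩, fun h => h.2⟩
        rw [← h4]
        exact heven
      have hwt : ∀ X, IsInv n P α X → ∑ r, chiC P F (pl n (p r).1) X = m * X.2 := by
        intro X hX
        have h2 := hw ⟨X, hX⟩
        have h3 : S.c ⟨X, hX⟩ = X.2 := rfl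
        rw [h3] at h2
        rw [← h2]
        refine Finset.sum_congr rfl fun r _ => ?_
        by_cases h4 : (F (p r).1.1).isLeft
        · have h5 : S.gl (S.pl (p r)) := h4
          rw [if_pos h5]
          exact chiC_real P F (pl n (p r).1) h4 X
        · have h5 : ¬ S.gl (S.pl (p r)) := h4
          rw [if_neg h5]
          have h6 : S.A (S.pl (p r)) ⟨X, hX⟩ = S'.A (S.pl (p r)) ⟨X, hX⟩ := S'.A'_neg _ h5 _
          rw [h6]
          show _ = smA n P F α ok b (pl n (p r).1) (p r).2 X 0 0
          rw [smA_cm n P F α ok b (pl n (p r).1) (p r).2 h4, if_pos ⟨rfl, rfl⟩]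
      have h7 := balance_ofK n P F α hre hNE m (by omega) (fun r => (p r).1) hinj heven' hwt t.1 ht
      have h8 : ∀ s : {s : Emb K // ok s.1}, Finset.univ.filter (fun r => S.pl (p r) = s) =
          Finset.univ.filter (fun r => pl n (p r).1 = s.1) := by
        intro s
        ext r
        simp only [Finset.mem_filter, Finset.mem_univ, true_and]
        exact Subtype.ext_iff
      rw [h8, h8]
      exact h7
  -- back to slot functions
  let P2' : HW κ n →ₗ[ℂ] W2 n P F ok := (P2 n P F ok).codRestrict _ (P2_mem n P F ok)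
  have hP2' : ∀ u, ((P2' u : W2 n P F ok) : HW κ n) = P2 n P F ok u := fun u => rfl
  have hback : ∀ v, Φ v = M (fun a => P2' (v (x a))) := by
    intro v
    rw [hMa, ← SF0_proj h0 (P2 n P F ok) (fun r hr u => EE_P2 n P F ok (q r) (hq r hr) u) v]
    refine h0.dep _ _ fun r hr => ?_
    rw [← himg, Finset.mem_image] at hr
    obtain ⟨a, -, rfl⟩ := hr
    rw [hx.extend_apply]
    rfl
  have hgen : ∀ N ∈ Submodule.span ℂ (S.invProd m),
      (fun v : R → HW κ n => N (fun a => P2' (v (x a)))) ∈ PS (invB n P α) T := by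
    intro N hN
    refine Submodule.span_induction (p := fun N _ =>
      (fun v : R → HW κ n => N (fun a => P2' (v (x a)))) ∈ PS (invB n P α) T) ?_ ?_ ?_ ?_ hN
    · rintro _ ⟨π, β, hβ, rfl⟩
      apply Submodule.subset_span
      have h1 := PP_of_prod (𝓑 := invB n P α) (fun a => x (π a))
        (fun a c h => π.injective (hx h)) (fun a => (β a).compl₁₂ P2' P2') (fun a => by
          intro X hX u v
          have h2 := hβ a ⟨X, hX⟩ (P2' u) (P2' v)
          have h3 : ∀ u, P2' (lift n X.1 u) = S.L ⟨X, hX⟩ (P2' u) := by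
            intro u
            apply Subtype.ext
            exact P2_lift n P F α ok X hX u
          rw [LinearMap.compl₁₂_apply, LinearMap.compl₁₂_apply, LinearMap.compl₁₂_apply, h3, h3]
          exact h2)
      have h4 : Finset.univ.image (fun a => x (π a)) = T := by
        rw [← himg]
        ext r
        simp only [Finset.mem_image, Finset.mem_univ, true_and]
        constructor
        · rintro ⟨a, rfl⟩; exact ⟨_, rfl⟩
        · rintro ⟨a, rfl⟩; exact ⟨π.symm a, by rw [Equiv.apply_symm_apply]⟩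
      rw [h4] at h1
      exact h1
    · exact Submodule.zero_mem _
    · intro N N' _ _ h1 h2
      exact Submodule.add_mem _ h1 h2
    · intro c N _ h1
      exact Submodule.smul_mem _ c h1
  have h1 : Φ = fun v => M (fun a => P2' (v (x a))) := funext hback
  rw [h1]
  exact hgen M hspan

end family

section family

variable {I : Type} [Fintype I] [DecidableEq I] (n : I → ℕ)
  {κ : I → Type} [∀ i, Fintype (κ i)] [∀ i, DecidableEq (κ i)] {ϖ : ℂ}
  (P : ∀ i, PData (κ i) ϖ)
  {K : I → Type} [∀ i, Field (K i)] [∀ i, NumberField (K i)]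
  (F : ∀ i, FS (P i) (K i))
  {k : ℕ} (α : MultilinearMap ℂ (fun _ : Fin (2 * k) => HW κ n) ℂ)
  (ok : I → Prop)
  (hϖ : ϖ ≠ 0)
  (hB : ∀ v : Fin (2 * k) → HW κ n, (∀ r, IsRatP n P (v r)) → ∃ q : ℚ, α v = ϖ ^ k * q)
  (hA : ∀ v : Fin (2 * k) → HW κ n, (∀ r i m j, IsAlgebraic ℚ (v r i m j)) →
      IsAlgebraic ℚ (α v))

include hϖ hB hA in
/-- slot functions all of whose labels have spaces of dimension at most two -/
theorem small_fftK (hk : IsKilling ℂ (LL n P F α)) (p : Principal (LL n P F α))
    (h2 : ∀ s : Emb K, ok s.1 → (F s.1).isLeft → finrank ℂ (Vs n P F α s) = 2)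
    (hre : ∀ i, (F i).isLeft → ∀ σ : K i →+* ℂ, ComplexEmbedding.conjugate σ = σ)
    (hNE : ∀ z : Emb K → ℤ, (fun t => (z t : ℚ)) ∈ relS n P F α → (∀ t, |z t| ≤ n t.1) →
      (∃ m : ℤ, ∑ t, |z t| = 4 * m) → ∑ t, |z t| ≤ 4 * k →
        ∀ t, ¬ (F t.1).isLeft → z t = 0)
    {R : Type*} [DecidableEq R] {T : Finset R} {q : R → At n K} {Φ : (R → HW κ n) → ℂ}
    (hev : Even T.card) (hTk : T.card ≤ 2 * k) (hΦ : SF (symG n P α) (EE n P F) q T Φ) (hq : ∀ r ∈ T, ok (q r).1) :
    Φ ∈ PS (invB n P α) T := by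
  classical
  have hskew : ∀ s : Emb K, (F s.1).isLeft → ∀ X hX,
      LinearMap.trace ℂ (Vs n P F α s)
        (LieModule.toEnd ℂ (LL n P F α) (Vs n P F α s) (elL n P F α X hX)) = 0 := by
    intro s hs X hX
    exact trace_skew (omV n P F α s) (omV_symp n P F α s hs).nd _
      (fun a b => (omV_symp n P F α s hs).inv _ a b)
  refine small_coreK n P F α ok
    (fun s hs hl => Module.finBasisOfFinrankEq ℂ (Vs n P F α s) (h2 s hs hl)) ?_ ?_ hre hNE hev hTk hΦ
    hq
  · intro s hs hl Y hY
    have hn : Nontrivial (Vs n P F α s) := by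
      apply Module.finrank_pos_iff (R := ℂ).mp
      rw [h2 s hs hl]; norm_num
    have hirr := Vs_irr n P F α hϖ hB hA s hl hn
    obtain ⟨a, ha⟩ := surj_dim2 p (omV_symp n P F α s hl) (h2 s hs hl) Y hY
    obtain ⟨X, hX, rfl, hX2, -⟩ := perfect_lift n P F α hk a
    refine ⟨X, hX, ?_⟩
    apply LinearMap.ext
    intro x
    rw [actV_real n P F α s hl X hX, hX2, zero_div, zero_smul, add_zero, ha]
  · intro s hs hl X hX
    have h3 : actV n P F α s (X.1 s.1) =
        LieModule.toEnd ℂ (LL n P F α) (Vs n P F α s) (elL n P F α X hX) +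
          (X.2 / 2) • (1 : Module.End ℂ (Vs n P F α s)) := by
      apply LinearMap.ext
      intro x
      rw [actV_real n P F α s hl X hX]
      rfl
    rw [h3, map_add, hskew s hl X hX, map_smul, LinearMap.trace_one, h2 s hs hl, smul_eq_mul]
    push_cast
    ring

end family

section conditions

variable {I : Type} [Fintype I] [DecidableEq I] (A : I → AbVar) {n : I → ℕ} {K : I → Type}
  [∀ i, Field (K i)] [∀ i, NumberField (K i)]

/-- no exceptional relations of bounded size for the weights of a family -/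
theorem relS_noExoticK {k : ℕ} (F : ∀ i, FS (pData (A i)) (K i))
    (α : MultilinearMap ℂ (fun _ : Fin (2 * k) => HW (fun i => Fin (A i).g ⊕ Fin (A i).g) n) ℂ)
    (hB : ∀ v : Fin (2 * k) → HW (fun i => Fin (A i).g ⊕ Fin (A i).g) n,
      (∀ r, IsRatP n (fun i => pData (A i)) (v r)) →
      ∃ q : ℚ, α v = (2 * Real.pi * Complex.I) ^ k * q)
    (hA : ∀ v : Fin (2 * k) → HW (fun i => Fin (A i).g ⊕ Fin (A i).g) n,
      (∀ r i m j, IsAlgebraic ℚ (v r i m j)) → IsAlgebraic ℚ (α v))
    (S T : Finset I) (hST : ∀ i, i ∈ S ∨ i ∈ T) (hFl : ∀ i, (F i).isLeft ↔ i ∈ S)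
    (hS : ∀ i ∈ S, IsTotallyReal (K i)) (hC : ∀ i ∈ T, IsCMType (A i) (K i))
    (h : OddMultiplicityFree K ∨ LowDimCM A n K T ∨ PrimeFamCM A n K T k)
    (z : Emb K → ℤ) (hzU : (fun t => (z t : ℚ)) ∈ relS n (fun i => pData (A i)) F α)
    (hzn : ∀ t, |z t| ≤ n t.1) (h4 : ∃ m : ℤ, ∑ t, |z t| = 4 * m)
    (hk4 : ∑ t, |z t| ≤ 4 * k) (t : Emb K)
    (ht : ¬ (F t.1).isLeft) : z t = 0 := by
  rcases h with h | h | h
  · exact relS_noExotic A F α hB hA S T hST hFl hS hC (Or.inl h) z hzU hzn h4 t ht
  · exact relS_noExotic A F α hB hA S T hST hFl hS hC (Or.inr (Or.inl h)) z hzU hzn h4 t ht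
  have hre : ∀ i, (F i).isLeft → ∀ σ : K i →+* ℂ, ComplexEmbedding.conjugate σ = σ := by
    intro i hi σ
    have := hS i ((hFl i).mp hi)
    exact ComplexEmbedding.isReal_iff.mp (IsTotallyReal.complexEmbedding_isReal σ)
  have hodd := relS_odd n (fun i => pData (A i)) F α hre
  have htT : ∀ i, i ∈ T → ¬ (F i).isLeft := by
    intro i h1 h2
    have h3 := hS _ ((hFl i).mp h2)
    have h5 := (hC _ h1).choose
    have σ : K i →+* ℂ := Classical.choice inferInstance
    exact IsTotallyComplex.complexEmbedding_not_isReal σ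
      (IsTotallyReal.complexEmbedding_isReal σ)
  refine prime_fam T (fun i => (A i).g) (fun i hi => hS i ((hST i).resolve_right hi))
    (fun i hi => (hC i hi).choose) (fun i hi => ?_) h.dim h.distinct hodd ?_ n k ?_ z hzU hzn h4
    hk4 t
  · obtain ⟨h1, ⟨C⟩⟩ := hC i hi
    exact C.degree
  · intro s s' hs hs' hrel
    have hsg := htT _ hs
    have hsg' : ¬ (F s'.1).isLeft := htT _ (by rw [hs']; exact hs)
    refine eq_of_relS n (fun i => pData (A i)) F _ Complex.two_pi_I_ne_zero hB hA s s' hsg hsg'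
      ?_ (fun hne => absurd hs'.symm hne) hrel
    intro f hf
    refine (F s.1).simple_rho hsg ?_ f hf
    intro g hg hg0
    exact h.simple s.1 hs g (isEnd_of_isDRB (A s.1) g hg) hg0
  · rintro i hi j hj hni hnj hqi hqj (⟨hij, h1⟩ | ⟨rfl, h1, h2⟩)
    · exact h.pair i hi j hj hij hni hnj hqi hqj h1
    · have := h.power i hi h2 h1 hqi
      omega

end conditions

end Pool.Agent.Helper28.GPC
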