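import Pool.Agent.Helper7.L9
import Pool.Agent.Helper28.GPC.SmallK

/-!
The theorem in all degrees for products of abelian varieties of real type, of total dimension at
most four, and abelian varieties with complex multiplication, with a condition on the factors with
complex multiplication that depends on the degree.
-/

set_option linter.unusedSectionVars false

namespace Pool.Agent.Helper28.GPC

open Module NumberField LieAlgebra

attribute [local instance 100] LieRing.ofAssociativeRing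

open Pool.Agent.GPC Pool.Agent.Helper7
open Pool.Agent.Helper8 (Symp Principal PS SF symG mem_of_PS)

section main

variable {I : Type} [Fintype I] [DecidableEq I] (n : I → ℕ)
  {κ : I → Type} [∀ i, Fintype (κ i)] [∀ i, DecidableEq (κ i)] {ϖ : ℂ}
  (P : ∀ i, PData (κ i) ϖ)
  {K : I → Type} [∀ i, Field (K i)] [∀ i, NumberField (K i)]
  (F : ∀ i, FS (P i) (K i))
  {k : ℕ} (α : (HW κ n) [⋀^Fin (2 * k)]→ₗ[ℂ] ℂ)

variable (hϖ : ϖ ≠ 0)
  (hB : ∀ v : Fin (2 * k) → HW κ n, (∀ r, IsRatP n P (v r)) → ∃ q : ℚ, α v = ϖ ^ k * q)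
  (hA : ∀ v : Fin (2 * k) → HW κ n, (∀ r i m j, IsAlgebraic ℚ (v r i m j)) →
      IsAlgebraic ℚ (α v))

include hϖ hB hA in
/-- the component at a label -/
theorem label_memK (hk : IsKilling ℂ (LL n P F (toM' n α))) (p : Principal (LL n P F (toM' n α)))
    (hdim : ∀ S : Finset (At n K), (∀ a ∈ S, (F a.1).isLeft) →
      ∑ a ∈ S, R4.dimA (toM' n α) F a ≤ 8)
    (hre : ∀ i, (F i).isLeft → ∀ σ : K i →+* ℂ, ComplexEmbedding.conjugate σ = σ)
    (hNE : ∀ z : Emb K → ℤ, (fun t => (z t : ℚ)) ∈ relS n P F (toM' n α) →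
      (∀ t, |z t| ≤ n t.1) → (∃ m : ℤ, ∑ t, |z t| = 4 * m) → ∑ t, |z t| ≤ 4 * k →
        ∀ t, ¬ (F t.1).isLeft → z t = 0)
    (a : Fin (2 * k) → At n K) :
    (fun v : Fin (2 * k) → HW κ n => α (fun r => EE n P F (a r) (v r))) ∈
      PS (invB n P (toM' n α)) (Finset.univ : Finset (Fin (2 * k))) := by
  classical
  obtain ⟨Tr, hTr⟩ : ∃ Tr : Finset (Fin (2 * k)),
    Tr = Finset.univ.filter (fun r => (F (a r).1).isLeft) := ⟨_, rfl⟩
  obtain ⟨m, x, hx, himg⟩ : ∃ (m : ℕ) (x : Fin m → Fin (2 * k)), Function.Injective x ∧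
      Finset.univ.image x = Tr := by
    refine ⟨Tr.card, fun j => (Tr.equivFin.symm j : Fin (2 * k)),
      fun a c h => Tr.equivFin.symm.injective (Subtype.ext h), ?_⟩
    ext r
    rw [Finset.mem_image]
    constructor
    · rintro ⟨j, -, rfl⟩; exact (Tr.equivFin.symm j).2
    · intro hr
      exact ⟨Tr.equivFin ⟨r, hr⟩, Finset.mem_univ _, by rw [Equiv.symm_apply_apply]⟩
  have hxl : ∀ j, (F (a (x j)).1).isLeft := by
    intro j
    have h1 : x j ∈ Tr := by rw [← himg]; exact Finset.mem_image_of_mem x (Finset.mem_univ j)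
    rw [hTr] at h1
    exact (Finset.mem_filter.mp h1).2
  have hxc : ∀ r, (∀ j, x j ≠ r) → ¬ (F (a r).1).isLeft := by
    intro r hr h
    have h1 : r ∈ Tr := by rw [hTr]; exact Finset.mem_filter.mpr ⟨Finset.mem_univ _, h⟩
    rw [← himg, Finset.mem_image] at h1
    obtain ⟨j, -, hj⟩ := h1
    exact hr j hj
  have hTc : ∀ r ∈ (Finset.univ.image x)ᶜ, ¬ (F (a r).1).isLeft := by
    intro r hr
    rw [Finset.mem_compl, Finset.mem_image] at hr
    push Not at hr
    exact hxc r fun j => hr j (Finset.mem_univ j)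
  obtain ⟨B, hBdef⟩ : ∃ B, B = resA α (VR n P F) x hx (fun r => evS n P F (a r)) := ⟨_, rfl⟩
  have hBi : InvR n P F (toM' n α) B := by rw [hBdef]; exact resA_inv n P F α a x hx hxc
  have hval : ∀ v : Fin (2 * k) → HW κ n, α (fun r => EE n P F (a r) (v r)) =
      (∏ r ∈ (Finset.univ.image x)ᶜ, cvS n P F (a r) (v r)) *
        B (fun j => PR n P F (EE n P F (a (x j)) (v (x j)))) := by
    intro v
    obtain ⟨w, hw⟩ : ∃ w, w = Function.extend x (fun j => EE n P F (a (x j)) (v (x j)))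
      (fun r => evS n P F (a r)) := ⟨_, rfl⟩
    let c : Fin (2 * k) → ℂ := fun r =>
      if r ∈ Finset.univ.image x then 1 else cvS n P F (a r) (v r)
    have h1 : (fun r => EE n P F (a r) (v r)) = fun r => c r • w r := by
      funext r
      by_cases hr : r ∈ Finset.univ.image x
      · obtain ⟨j, -, rfl⟩ := Finset.mem_image.mp hr
        simp only [c]
        rw [if_pos hr, one_smul, hw, hx.extend_apply]
      · have hr' : ∀ j, x j ≠ r := fun j h => hr (Finset.mem_image.mpr ⟨j, Finset.mem_univ _, h⟩)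
        simp only [c]
        rw [if_neg hr, hw, Function.extend_apply' _ _ _ (by rintro ⟨j, hj⟩; exact hr' j hj)]
        exact EE_cm n P F (a r) (hxc r hr') (v r)
    have h2 : α (fun r => c r • w r) = (∏ r, c r) * α w :=
      (α : MultilinearMap ℂ (fun _ : Fin (2 * k) => HW κ n) ℂ).map_smul_univ c w
    rw [h1, h2]
    congr 1
    · rw [← Finset.prod_mul_prod_compl (Finset.univ.image x) c,
        Finset.prod_eq_one (fun r hr => if_pos hr), one_mul]
      refine Finset.prod_congr rfl fun r hr => ?_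
      rw [Finset.mem_compl] at hr
      exact if_neg hr
    · rw [hBdef, resA_apply, hw]
      congr 2
      funext j
      exact (P2_of_mem n P F _ _ (EE_mem_W2 n P F _ (a (x j)) (hxl j) (v (x j)))).symm
  by_cases h0 : ∀ u, B u = 0
  · have h1 : (fun v : Fin (2 * k) → HW κ n => α (fun r => EE n P F (a r) (v r))) = 0 := by
      funext v
      rw [hval, h0, mul_zero]; rfl
    rw [h1]
    exact Submodule.zero_mem _
  push Not at h0
  obtain ⟨u, hu⟩ := h0
  have hmev : Even m := by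
    by_contra hodd
    rw [Nat.not_even_iff_odd] at hodd
    exact hu (real_odd n P F (toM' n α) hϖ hB hA hk p hodd B hBi u)
  have hinj : ∀ r ∈ (Finset.univ.image x)ᶜ, ∀ s ∈ (Finset.univ.image x)ᶜ, a r = a s → r = s := by
    intro r hr s hs h
    by_contra hne
    apply hu
    rw [hBdef, resA_apply]
    rw [Finset.mem_compl, Finset.mem_image] at hr hs
    push Not at hr hs
    refine α.map_eq_zero_of_eq _ (i := r) (j := s) ?_ hne
    rw [Function.extend_apply' _ _ _ (by rintro ⟨j, hj⟩; exact hr j (Finset.mem_univ j) hj),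
      Function.extend_apply' _ _ _ (by rintro ⟨j, hj⟩; exact hs j (Finset.mem_univ j) hj), h]
  have hg : (fun v : Fin (2 * k) → HW κ n => ∏ r ∈ (Finset.univ.image x)ᶜ, cvS n P F (a r) (v r)) ∈
      PS (invB n P (toM' n α)) ((Finset.univ.image x)ᶜ : Finset (Fin (2 * k))) := by
    refine small_coreK n P F (toM' n α) (fun i => ¬ (F i).isLeft)
      (fun s hs hl => absurd hl hs) (fun s hs hl => absurd hl hs) (fun s hs hl => absurd hl hs)
      hre hNE ?_ ((Finset.card_le_univ _).trans (Fintype.card_fin _).le) (sf_cv n P F (toM' n α) a _ hTc hinj (fun X hX =>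
        cm_weight n P F α a x hx hk hxc u (by rw [← hBdef]; exact hu) X hX)) hTc
    rw [Finset.card_compl, Finset.card_image_of_injective _ hx, Finset.card_univ, Fintype.card_fin,
      Fintype.card_fin]
    obtain ⟨c, hc⟩ := hmev
    exact ⟨k - c, by omega⟩
  have hh : (fun v : Fin (2 * k) → HW κ n => B (fun j => PR n P F (EE n P F (a (x j)) (v (x j)))))
      ∈ PS (invB n P (toM' n α)) (Finset.univ.image x) :=
    R4.PS_sub (real_all n P F (toM' n α) hϖ hB hA hk p hdim B hBi x hx)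
      (fun r => EE n P F (a r)) (fun β hβ r _ s _ => inv_EE n P F (toM' n α) β hβ (a r) (a s))
  have h1 := PS.mul hg hh disjoint_compl_left
  have h2 : (Finset.univ.image x)ᶜ ∪ Finset.univ.image x = Finset.univ := by
    rw [Finset.union_comm]; exact Finset.union_compl _
  rw [h2] at h1
  have h3 : (fun v : Fin (2 * k) → HW κ n => α (fun r => EE n P F (a r) (v r))) = _ :=
    funext hval
  rw [h3]
  exact h1

include hϖ hB hA in
theorem family_LK
    (hdim : ∀ S : Finset (At n K), (∀ a ∈ S, (F a.1).isLeft) →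
      ∑ a ∈ S, R4.dimA (toM' n α) F a ≤ 8)
    (hre : ∀ i, (F i).isLeft → ∀ σ : K i →+* ℂ, ComplexEmbedding.conjugate σ = σ)
    (hNE : ∀ z : Emb K → ℤ, (fun t => (z t : ℚ)) ∈ relS n P F (toM' n α) →
      (∀ t, |z t| ≤ n t.1) → (∃ m : ℤ, ∑ t, |z t| = 4 * m) → ∑ t, |z t| ≤ 4 * k →
        ∀ t, ¬ (F t.1).isLeft → z t = 0) :
    (α : MultilinearMap ℂ (fun _ : Fin (2 * k) => HW κ n) ℂ) ∈ Submodule.span ℂ
      {M | ∃ (π : Equiv.Perm (Fin (2 * k))) (β : Fin k → (HW κ n →ₗ[ℂ] HW κ n →ₗ[ℂ] ℂ)),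
      (∀ a, β a ∈ invB n P (α : MultilinearMap ℂ (fun _ : Fin (2 * k) => HW κ n) ℂ)) ∧
        M = (prodBilin β).domDomCongr π} := by
  classical
  have hrad : HasTrivialRadical ℂ (LL n P F (toM' n α)) := LL_trivialRadical n P F _ hϖ hB hA
  have hk : IsKilling ℂ (LL n P F (toM' n α)) := inferInstance
  obtain ⟨p⟩ := Pool.Agent.Helper8.exists_principal (LL n P F (toM' n α))
  apply mem_of_PS
  have h1 : (fun v => (α : MultilinearMap ℂ (fun _ : Fin (2 * k) => HW κ n) ℂ) v) =
      ∑ a : Fin (2 * k) → At n K,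
        (fun v : Fin (2 * k) → HW κ n => α (fun r => EE n P F (a r) (v r))) := by
    funext v
    rw [Finset.sum_apply]
    exact Pool.Agent.Helper8.sum_labels α v
  rw [h1]
  exact Submodule.sum_mem _ fun a _ =>
    label_memK n P F α hϖ hB hA hk p hdim hre hNE a

end main

variable {I : Type} [Fintype I] (A : I → AbVar) (n : I → ℕ) (K : I → Type)
  [∀ i, Field (K i)] [∀ i, NumberField (K i)]

theorem main_LK (hT : ∀ i, NotProportional (A i)) (S T : Finset I) (hST : ∀ i, i ∈ S ∨ i ∈ T)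
    (hR : ∀ i ∈ S, IsRealType (A i) (K i)) (hC : ∀ i ∈ T, IsCMType (A i) (K i))
    (hdim : ∑ i ∈ S, n i * (A i).g ≤ 4)
    (k : ℕ) (h : OddMultiplicityFree K ∨ LowDimCM A n K T ∨ PrimeFamCM A n K T k) (α : Form A n (2 * k)) : IsGrothendieck A n k α ↔ IsDivisorial A n k α := by
  classical
  refine ⟨?_, isGrothendieck_of_isDivisorial A n k α⟩
  rintro ⟨hα1, hα2⟩
  have hNT : ∀ i, i ∉ S → i ∈ T := fun i hi => (hST i).resolve_left hi
  have hF : ∀ i, ∃ F : FS (pData (A i)) (K i), (F.isLeft ↔ i ∈ S) ∧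
      (i ∈ S → finrank ℚ (K i) * F.rk = 2 * (A i).g) ∧ (i ∉ S → F.rk = 0) := by
    intro i
    by_cases hi : i ∈ S
    · obtain ⟨F, hF⟩ := nonempty_RF (A i) (K i) (Classical.choice (hR i hi).2)
      exact ⟨.inl F, ⟨fun _ => hi, fun _ => rfl⟩, fun _ => hF, fun h => absurd hi h⟩
    · obtain ⟨h1, ⟨C⟩⟩ := hC i (hNT i hi)
      exact ⟨.inr ⟨cmFac (A i) (K i) C (hT i), fun h => h⟩,
        ⟨fun h => by simp at h, fun h => absurd h hi⟩, fun h => absurd h hi, fun _ => rfl⟩
  choose F hFl hFr hF0 using hF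
  have hB : ∀ v : Fin (2 * k) → HW (fun i => Fin (A i).g ⊕ Fin (A i).g) n,
      (∀ r, IsRatP n (fun i => pData (A i)) (v r)) →
      ∃ q : ℚ, α v = (2 * Real.pi * Complex.I) ^ k * q := by
    intro v hv
    apply hα2
    intro r i m
    exact (mem_pData_Q _ _).mp (hv r i m)
  have hsum : ∀ T : Finset (At n K), (∀ a ∈ T, (F a.1).isLeft) →
      ∑ a ∈ T, R4.dimA (toM' n α) F a ≤ 8 := by
    intro T hTl
    refine (R4.sum_dimA_le (toM' n α) T hTl).trans ?_
    have h1 : ∑ i, n i * (finrank ℚ (K i) * (F i).rk) = ∑ i ∈ S, n i * (2 * (A i).g) := by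
      rw [← Finset.sum_subset (Finset.subset_univ S) (fun i _ hi => by
        rw [hF0 i hi, mul_zero, mul_zero])]
      exact Finset.sum_congr rfl fun i hi => by rw [hFr i hi]
    rw [h1]
    have h2 : ∑ i ∈ S, n i * (2 * (A i).g) = 2 * ∑ i ∈ S, n i * (A i).g := by
      rw [Finset.mul_sum]
      exact Finset.sum_congr rfl fun i _ => by ring
    omega
  have hre : ∀ i, (F i).isLeft → ∀ σ : K i →+* ℂ, ComplexEmbedding.conjugate σ = σ := by
    intro i hi σ
    have := (hR i ((hFl i).mp hi)).1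
    exact ComplexEmbedding.isReal_iff.mp (IsTotallyReal.complexEmbedding_isReal σ)
  have hNE := relS_noExoticK A F (toM' n α) hB hα1 S T hST hFl (fun i hi => (hR i hi).1) hC h
  have h1 := abstract_of_span n (fun i => pData (A i)) Complex.two_pi_I_ne_zero α hB hα1
    (family_LK n (fun i => pData (A i)) F α Complex.two_pi_I_ne_zero hB hα1 hsum hre hNE)
  exact isDivisorial_of_span A n k α h1

end Pool.Agent.Helper28.GPC
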