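import Pool.Agent.Helper7.SmallG
import Pool.Agent.Helper28.GPC.PrimeFam

/-!
The factors of CM type of a family whose other factors are arbitrary: weights and relations.
-/

namespace Pool.Agent.Helper28.GPC

open Module NumberField
open Pool.Agent.GPC Pool.Agent.Helper7
open Pool.Agent.Helper84 (xi)

set_option linter.unusedSectionVars false

section family

variable {I : Type} [Fintype I] [DecidableEq I] (n : I → ℕ)
  {κ : I → Type} [∀ i, Fintype (κ i)] [∀ i, DecidableEq (κ i)] {ϖ : ℂ}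
  (P : ∀ i, PData (κ i) ϖ)
  {K : I → Type} [∀ i, Field (K i)] [∀ i, NumberField (K i)]
  {T : Finset I}
  (F : ∀ i : {i // i ∈ T}, {F : Fac (P i.1) (K i.1) // ¬ F.gl})
  {k : ℕ} (α : MultilinearMap ℂ (fun _ : Fin (2 * k) => HW κ n) ℂ)

/-- the weights at the factors of CM type -/
noncomputable def chiT (t : Emb (fun i : {i // i ∈ T} => K i.1)) (X : GG κ) : ℂ :=
  (F t.1).1.mat t.2 (X.1 t.1.1) 0 0

lemma commT {X : GG κ} (hX : IsInv n P α X) (i : {i // i ∈ T}) : (F i).1.Comm (X.1 i.1) :=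
  fun x v => hX.comm i.1 i.1 _ ((F i).1.hρ x) v

lemma chiT_add (s : Emb (fun i : {i // i ∈ T} => K i.1)) (X Y : GG κ) :
    chiT P F s (X + Y) = chiT P F s X + chiT P F s Y := by
  show (F s.1).1.mat s.2 (X.1 s.1.1 + Y.1 s.1.1) 0 0 = _
  rw [map_add]; rfl

lemma chiT_smul (s : Emb (fun i : {i // i ∈ T} => K i.1)) (c : ℂ) (X : GG κ) :
    chiT P F s (c • X) = c * chiT P F s X := by
  show (F s.1).1.mat s.2 (c • X.1 s.1.1) 0 0 = _
  rw [map_smul]; rfl

lemma chiT_zero (s : Emb (fun i : {i // i ∈ T} => K i.1)) : chiT P F s 0 = 0 := by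
  show (F s.1).1.mat s.2 (0 : Module.End ℂ (κ s.1.1 → ℂ)) 0 0 = _
  rw [map_zero]; rfl

lemma chiT_conj (s : Emb (fun i : {i // i ∈ T} => K i.1)) (X : GG κ) (hX : IsInv n P α X) :
    chiT P F s X + chiT P F (conjT s) X = X.2 :=
  (F s.1).1.char_eq (F s.1).2 (X.1 s.1.1) (commT n P F α hX s.1) X.2 (hX.pol s.1.1) s.2

lemma chiT_rat (i : {i // i ∈ T}) (X : GG κ) (hX : IsInv n P α X) (hr : IsRatl P X) :
    ∃ x : K i.1, ∀ σ : K i.1 →+* ℂ, chiT P F ⟨i, σ⟩ X = σ x := by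
  obtain ⟨m, hm⟩ := (F i).1.exists_matK (X.1 i.1) (commT n P F α hX i) (hr.1 i.1)
  exact ⟨m 0 0, fun σ => (F i).1.mat_eq _ (commT n P F α hX i) m hm σ 0 0 (Or.inr rfl)⟩

lemma chiT_bracket (s : Emb (fun i : {i // i ∈ T} => K i.1)) (X Y : GG κ) (hX : IsInv n P α X)
    (hY : IsInv n P α Y) : chiT P F s (X * Y - Y * X) = 0 := by
  show (F s.1).1.mat s.2 (X.1 s.1.1 * Y.1 s.1.1 - Y.1 s.1.1 * X.1 s.1.1) 0 0 = 0
  rw [map_sub, Matrix.sub_apply,
    Fac.Comm.mat_mul0 (commT n P F α hX s.1) (commT n P F α hY s.1) (F s.1).2,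
    Fac.Comm.mat_mul0 (commT n P F α hY s.1) (commT n P F α hX s.1) (F s.1).2, mul_comm, sub_self]

/-- relations between the weights -/
def relT : Submodule ℚ (Emb (fun i : {i // i ∈ T} => K i.1) → ℚ) where
  carrier := {u | IsOdd (fun i : {i // i ∈ T} => K i.1) u ∧
    ∀ X, IsInv n P α X → IsRatl P X → ∑ t, (u t : ℂ) * chiT P F t X = 0}
  zero_mem' := ⟨fun i σ => by simp, fun X _ _ => by simp⟩
  add_mem' := by
    rintro u v ⟨hu1, hu2⟩ ⟨hv1, hv2⟩
    refine ⟨fun i σ => by rw [Pi.add_apply, Pi.add_apply, hu1, hv1]; ring, fun X hX hr => ?_⟩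
    simp only [Pi.add_apply, Rat.cast_add, add_mul, Finset.sum_add_distrib]
    rw [hu2 X hX hr, hv2 X hX hr, add_zero]
  smul_mem' := by
    rintro c u ⟨hu1, hu2⟩
    refine ⟨fun i σ => by rw [Pi.smul_apply, Pi.smul_apply, hu1]; simp, fun X hX hr => ?_⟩
    simp only [Pi.smul_apply, smul_eq_mul, Rat.cast_mul, mul_assoc, ← Finset.mul_sum]
    rw [hu2 X hX hr, mul_zero]

lemma mem_relT (u : Emb (fun i : {i // i ∈ T} => K i.1) → ℚ) :
    u ∈ relT n P F α ↔ IsOdd (fun i : {i // i ∈ T} => K i.1) u ∧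
      ∀ X, IsInv n P α X → IsRatl P X → ∑ t, (u t : ℂ) * chiT P F t X = 0 := Iff.rfl

lemma relT_odd : IsOddModule (fun i : {i // i ∈ T} => K i.1) (relT n P F α) := by
  intro u hu
  refine ⟨hu.1, fun τ => ?_⟩
  rw [mem_relT] at hu ⊢
  refine ⟨fun i σ => ?_, fun X hX hr => ?_⟩
  · show u ⟨i, (τ : ℂ →+* ℂ).comp (ComplexEmbedding.conjugate σ)⟩ =
      - u ⟨i, (τ : ℂ →+* ℂ).comp σ⟩
    have h : (τ : ℂ →+* ℂ).comp (ComplexEmbedding.conjugate σ) =
        ComplexEmbedding.conjugate ((τ : ℂ →+* ℂ).comp σ) := by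
      refine RingHom.ext fun x => ?_
      have h1 := (F i).1.hcc σ x
      have h2 := (F i).1.hcc ((τ : ℂ →+* ℂ).comp σ) x
      rw [ComplexEmbedding.conjugate_coe_eq, ← h2, RingHom.comp_apply, RingHom.comp_apply, h1,
        ComplexEmbedding.conjugate_coe_eq]
    rw [h]
    exact hu.1 i _
  · have h1 : ∀ t : Emb (fun i : {i // i ∈ T} => K i.1),
        τ (chiT P F t X) = chiT P F (actT τ t) X := by
      rintro ⟨i, σ⟩
      obtain ⟨x, hx⟩ := chiT_rat n P F α i X hX hr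
      show τ (chiT P F ⟨i, σ⟩ X) = chiT P F ⟨i, (τ : ℂ →+* ℂ).comp σ⟩ X
      rw [hx, hx]
      rfl
    have h2 := hu.2 X hX hr
    rw [← Fintype.sum_equiv (actT τ) (fun t => (u (actT τ t) : ℂ) * chiT P F (actT τ t) X) _
      (fun _ => rfl)] at h2
    simp only [← h1] at h2
    have h3 : τ (∑ t, (u (actT τ t) : ℂ) * chiT P F t X) = 0 := by
      rw [map_sum, ← h2]
      refine Finset.sum_congr rfl fun t _ => ?_
      rw [map_mul, map_ratCast]
    exact (map_eq_zero τ).mp h3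

variable (hϖ : ϖ ≠ 0)
  (hB : ∀ v : Fin (2 * k) → HW κ n, (∀ r, IsRatP n P (v r)) → ∃ q : ℚ, α v = ϖ ^ k * q)
  (hA : ∀ v : Fin (2 * k) → HW κ n, (∀ r i m j, IsAlgebraic ℚ (v r i m j)) →
      IsAlgebraic ℚ (α v))

include hϖ hB hA in
/-- the relations do not contain all odd functions at a factor of CM type -/
lemma relT_ne (i : {i // i ∈ T}) : ∃ w : Emb (fun i : {i // i ∈ T} => K i.1) → ℚ,
    IsOdd (fun i : {i // i ∈ T} => K i.1) w ∧
    (∀ j σ, j ≠ i → w ⟨j, σ⟩ = 0) ∧ w ∉ relT n P F α := by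
  classical
  by_contra hcon
  push Not at hcon
  -- all weights at `i` are equal
  have hwt : ∀ σ : K i.1 →+* ℂ, ∀ X, IsInv n P α X → IsRatl P X →
      chiT P F ⟨i, σ⟩ X = X.2 / 2 := by
    intro σ X hX hr
    let w : Emb (fun i : {i // i ∈ T} => K i.1) → ℚ := fun t =>
      (if t = ⟨i, σ⟩ then 1 else 0) - (if conjT t = ⟨i, σ⟩ then 1 else 0)
    have hw := hcon w (fun j σ' => by
      have h5 : conjT (⟨j, ComplexEmbedding.conjugate σ'⟩ :
          Emb (fun i : {i // i ∈ T} => K i.1)) = ⟨j, σ'⟩ :=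
        conjT_conjT (⟨j, σ'⟩ : Emb (fun i : {i // i ∈ T} => K i.1))
      have h6 : (⟨j, ComplexEmbedding.conjugate σ'⟩ : Emb (fun i : {i // i ∈ T} => K i.1)) =
        conjT (⟨j, σ'⟩ : Emb (fun i : {i // i ∈ T} => K i.1)) := rfl
      simp only [w]
      rw [h5, h6]; ring) (fun j σ' htne => by
      have h1 : (⟨j, σ'⟩ : Emb (fun i : {i // i ∈ T} => K i.1)) ≠ ⟨i, σ⟩ :=
        fun h => htne (congrArg Sigma.fst h)
      have h2 : conjT (⟨j, σ'⟩ : Emb (fun i : {i // i ∈ T} => K i.1)) ≠ ⟨i, σ⟩ :=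
        fun h => htne (by
          have h3 : (conjT (⟨j, σ'⟩ : Emb (fun i : {i // i ∈ T} => K i.1))).1 = i := by rw [h]
          exact h3)
      simp only [w, if_neg h1, if_neg h2, sub_zero])
    have h1 := hw.2 X hX hr
    have h2 : ∑ t, ((w t : ℚ) : ℂ) * chiT P F t X =
        chiT P F ⟨i, σ⟩ X - chiT P F (conjT ⟨i, σ⟩) X := by
      have h3 : ∀ t, ((w t : ℚ) : ℂ) * chiT P F t X = (if t = ⟨i, σ⟩ then chiT P F t X else 0) -
          (if t = conjT ⟨i, σ⟩ then chiT P F t X else 0) := by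
        intro t
        have h4 : (conjT t = ⟨i, σ⟩) ↔ (t = conjT ⟨i, σ⟩) :=
          ⟨fun h => by rw [← h, conjT_conjT], fun h => by rw [h, conjT_conjT]⟩
        simp only [w, h4]
        split_ifs <;> simp
      simp only [h3]
      rw [Finset.sum_sub_distrib, Finset.sum_ite_eq' Finset.univ, Finset.sum_ite_eq' Finset.univ]
      simp
    rw [h2] at h1
    have h3 := chiT_conj n P F α ⟨i, σ⟩ X hX
    linear_combination h1 / 2 + h3 / 2
  -- hence all rational symmetries are scalar at `i`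
  have hscal : ∀ X, IsInv n P α X → IsRatl P X → ∀ v, X.1 i.1 v = (X.2 / 2) • v := by
    intro X hX hr v
    have hcomm : (F i).1.Comm (X.1 i.1) := commT n P F α hX i
    have h1 := (F i).1.ext_e (X.1 i.1) ((X.2 / 2) • (LinearMap.id : Module.End ℂ (κ i.1 → ℂ)))
      (fun σ j => ?_) v
    · rw [h1]; rfl
    · have hfin : ∀ j : Fin 2, j = 0 ∨ j = 1 := by
        intro j; fin_cases j <;> simp
      rcases hfin j with hj | hj
      · subst hj
        rw [hcomm.act, Fin.sum_univ_two, (F i).1.e_one (F i).2, smul_zero, add_zero]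
        have h2 := hwt σ X hX hr
        have h3 : chiT P F ⟨i, σ⟩ X = (F i).1.mat σ (X.1 i.1) 0 0 := rfl
        rw [← h3, h2]; rfl
      · subst hj
        rw [(F i).1.e_one (F i).2, map_zero, map_zero]
  -- a rational line is spanned by an algebraic vector
  have h1 := algebraic_of_stable n P α hϖ hB hA i.1 {(F i).1.lf.lam 0}
    (fun v hv => by rw [Set.mem_singleton_iff.mp hv]; exact (F i).1.lf.lam_rat 0)
    (fun Y hY hYr v hv => by
      rw [hscal Y hY hYr]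
      exact Submodule.smul_mem _ _ (Submodule.subset_span hv))
  have h2 : (F i).1.lf.lam 0 ∈ Submodule.span ℂ
      {v | (∀ j, IsAlgebraic ℚ (v j)) ∧ v ∈ Submodule.span ℂ {(F i).1.lf.lam 0}} :=
    h1 (Submodule.subset_span rfl)
  obtain ⟨v, ⟨hv1, hv2⟩, hv0⟩ : ∃ v ∈ {v | (∀ j, IsAlgebraic ℚ (v j)) ∧
      v ∈ Submodule.span ℂ {(F i).1.lf.lam 0}}, v ≠ 0 := by
    by_contra hcon
    push Not at hcon
    have h3 : Submodule.span ℂ {v | (∀ j, IsAlgebraic ℚ (v j)) ∧
        v ∈ Submodule.span ℂ {(F i).1.lf.lam 0}} ≤ ⊥ := by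
      rw [Submodule.span_le]
      intro v hv
      rw [SetLike.mem_coe, Submodule.mem_bot]
      exact hcon v hv
    exact (F i).1.lam_ne ((Submodule.mem_bot ℂ).mp (h3 h2))
  obtain ⟨c, hc⟩ := Submodule.mem_span_singleton.mp hv2
  have hc0 : c ≠ 0 := by
    rintro rfl
    rw [zero_smul] at hc
    exact hv0 hc.symm
  refine (F i).1.hT (F i).2 _ ((F i).1.lf.lam_rat 0) (F i).1.lam_ne ⟨c⁻¹, v, hv1, ?_⟩
  rw [← hc, smul_smul, inv_mul_cancel₀ hc0, one_smul]

include hϖ hB in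
/-- a relation between two weights, for all symmetries -/
lemma pair_of_relT (s s' : Emb (fun i : {i // i ∈ T} => K i.1))
    (h : (fun t => xi s t + xi s' t) ∈ relT n P F α) (X : GG κ)
    (hX : IsInv n P α X) : chiT P F s X + chiT P F s' X = X.2 := by
  have hr : ∀ X, IsInv n P α X → IsRatl P X → chiT P F s X + chiT P F s' X = X.2 := by
    intro X hX hXr
    have h1 := h.2 X hX hXr
    have h2 : ∑ t, (((xi s t + xi s' t : ℚ)) : ℂ) * chiT P F t X =
        ∑ t, ((xi s t : ℚ) : ℂ) * chiT P F t X + ∑ t, ((xi s' t : ℚ) : ℂ) * chiT P F t X := by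
      rw [← Finset.sum_add_distrib]
      refine Finset.sum_congr rfl fun t _ => ?_
      push_cast; ring
    rw [h2, sum_xi, sum_xi] at h1
    have e1 := chiT_conj n P F α s X hX
    have e2 := chiT_conj n P F α s' X hX
    linear_combination h1 / 2 + e1 / 2 + e2 / 2
  have h3 := mem_span_of_isInv n P α hϖ hB X hX
  refine Submodule.span_induction (p := fun X _ => chiT P F s X + chiT P F s' X = X.2)
    ?_ ?_ ?_ ?_ h3
  · rintro Y ⟨hY, hYr⟩
    exact hr Y hY hYr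
  · rw [chiT_zero, chiT_zero, add_zero]; rfl
  · intro Y Z _ _ hY hZ
    rw [chiT_add, chiT_add]
    show _ = Y.2 + Z.2
    linear_combination hY + hZ
  · intro c Y _ hY
    rw [chiT_smul, chiT_smul]
    show _ = c * Y.2
    linear_combination c * hY

include hϖ hB in
/-- linear relations between the weights hold for all symmetries -/
lemma sum_of_relT (u : Emb (fun i : {i // i ∈ T} => K i.1) → ℚ) (h : u ∈ relT n P F α) (X : GG κ)
    (hX : IsInv n P α X) : ∑ t, (u t : ℂ) * chiT P F t X = 0 := by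
  have h3 := mem_span_of_isInv n P α hϖ hB X hX
  refine Submodule.span_induction (p := fun X _ => ∑ t, (u t : ℂ) * chiT P F t X = 0)
    ?_ ?_ ?_ ?_ h3
  · rintro Y ⟨hY, hYr⟩
    exact h.2 Y hY hYr
  · refine Finset.sum_eq_zero fun t _ => ?_
    rw [chiT_zero, mul_zero]
  · intro Y Z _ _ hY hZ
    simp only [chiT_add, mul_add, Finset.sum_add_distrib]
    rw [hY, hZ, add_zero]
  · intro c Y _ hY
    have h5 : ∀ t, (u t : ℂ) * chiT P F t (c • Y) = c * ((u t : ℂ) * chiT P F t Y) := by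
      intro t
      rw [chiT_smul]; ring
    rw [Finset.sum_congr rfl (fun t _ => h5 t), ← Finset.mul_sum, hY, mul_zero]

include hϖ hB hA in
/-- two places with the same weight are equal -/
lemma eq_of_relT (s s' : Emb (fun i : {i // i ∈ T} => K i.1))
    (hsimple : ∀ f, IsDRB (P s.1.1) (P s.1.1) f → ∃ x, ∀ v, f v = (F s.1).1.ρ x v)
    (hiso : s.1 ≠ s'.1 → ∀ f, IsDRB (P s.1.1) (P s'.1.1) f → ∀ v, f v = 0)
    (h : (fun t => xi s t + xi s' t) ∈ relT n P F α) : s' = conjT s := by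
  have hχ := pair_of_relT n P F α hϖ hB s s' h
  obtain ⟨i, σ⟩ := s
  obtain ⟨j, τ⟩ := s'
  simp only at hsimple hiso
  have hcv : ∀ (i : {i // i ∈ T}) (σ : K i.1 →+* ℂ) (X : GG κ), IsInv n P α X → ∀ u,
      (F i).1.lf.co σ 0 (X.1 i.1 u) = chiT P F ⟨i, σ⟩ X * (F i).1.lf.co σ 0 u := by
    intro i σ X hX u
    have h1 := Fac.Comm.co_act (commT n P F α hX i) σ 0 u (Or.inr rfl)
    rw [Fin.sum_univ_two, (F i).1.mat_neg (F i).2, zero_mul, add_zero] at h1
    exact h1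
  have hce : ∀ (i : {i // i ∈ T}) (σ : K i.1 →+* ℂ), (F i).1.lf.co σ 0 ((F i).1.e σ 0) = 1 := by
    intro i σ
    have h1 := (F i).1.co_e σ 0 σ 0 (Or.inr rfl)
    rw [if_pos ⟨rfl, rfl⟩] at h1
    exact h1
  obtain ⟨m, c, f, hf, hβ⟩ := bilin_of_inv n P α hϖ hB hA i.1 j.1
    ((LinearMap.mul ℂ ℂ).compl₁₂ ((F i).1.lf.co σ 0) ((F j).1.lf.co τ 0)) (by
      intro X hX u v
      simp only [LinearMap.compl₁₂_apply, LinearMap.mul_apply']
      rw [hcv i σ X hX, hcv j τ X hX]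
      have e := hχ X hX
      linear_combination (F i).1.lf.co σ 0 u * (F j).1.lf.co τ 0 v * e)
  simp only [LinearMap.compl₁₂_apply, LinearMap.mul_apply'] at hβ
  have h1 := hβ ((F i).1.e σ 0) ((F j).1.e τ 0)
  rw [hce, hce, mul_one] at h1
  by_cases hij : i = j
  · subst hij
    choose x hx using fun l => hsimple (f l) (hf l)
    have hcomm : ∀ l y v, f l ((F i).1.ρ y v) = (F i).1.ρ y (f l v) := by
      intro l y v
      rw [hx, hx, ← Module.End.mul_apply, ← Module.End.mul_apply, ← map_mul, ← map_mul, mul_comm]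
    have h2 : ∀ y, (F i).1.lf.co σ 0 ((F i).1.ρ y ((F i).1.e σ 0)) *
        (F i).1.lf.co τ 0 ((F i).1.e τ 0) =
        (F i).1.lf.co σ 0 ((F i).1.e σ 0) *
          (F i).1.lf.co τ 0 ((F i).1.ρ ((F i).1.cc y) ((F i).1.e τ 0)) := by
      intro y
      rw [hβ, hβ]
      refine Finset.sum_congr rfl fun l _ => ?_
      rw [hcomm, (F i).1.hros]
    have h3 : τ = ComplexEmbedding.conjugate σ := by
      refine RingHom.ext fun y => ?_
      have h4 := h2 y
      rw [(F i).1.rho_e, (F i).1.rho_e, map_smul, map_smul, hce, hce,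
        smul_eq_mul, smul_eq_mul, (F i).1.hcc] at h4
      simp only [mul_one, one_mul] at h4
      rw [ComplexEmbedding.conjugate_coe_eq, h4, Complex.conj_conj]
    rw [h3]
    rfl
  · exfalso
    have h2 : ∀ l v, f l v = 0 := fun l v => hiso hij (f l) (hf l) v
    rw [Finset.sum_eq_zero (fun l _ => by rw [h2, map_zero, LinearMap.zero_apply, mul_zero])] at h1
    exact one_ne_zero h1

end family

section conditions

variable {I : Type} (A : I → AbVar) (n : I → ℕ) (K : I → Type)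
  [∀ i, Field (K i)] [∀ i, NumberField (K i)]

lemma lowDimCM_sub (T : Finset I) (h : LowDimCM A n K T) :
    LowDimCM (fun i : {i // i ∈ T} => A i.1) (fun i => n i.1) (fun i => K i.1)
      (Finset.univ : Finset {i // i ∈ T}) := by
  classical
  have hsum : ∑ i ∈ (Finset.univ : Finset {i // i ∈ T}), n i.1 * (A i.1).g =
      ∑ i ∈ T, n i * (A i).g := Finset.sum_coe_sort T (fun i => n i * (A i).g)
  refine ⟨fun i _ => h.simple i.1 i.2, fun i _ j _ hij => h.hom_zero i.1 i.2 j.1 j.2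
    (fun h => hij (Subtype.ext h)), by rw [hsum]; exact h.dim_le, fun h4 => ?_⟩
  rw [hsum] at h4
  rintro ⟨q, hq, hq'⟩
  exact h.not_weil h4 ⟨q, hq, fun i hi hni => hq' ⟨i, hi⟩ (Finset.mem_univ _) hni⟩

lemma primeDimCM_sub (T : Finset I) (h : PrimeDimCM A n T) :
    PrimeDimCM (fun i : {i // i ∈ T} => A i.1) (fun i => n i.1)
      (Finset.univ : Finset {i // i ∈ T}) := by
  classical
  obtain ⟨i, rfl, h1, h2, h3⟩ := h
  refine ⟨⟨i, Finset.mem_singleton_self i⟩, ?_, h1, h2, h3⟩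
  ext ⟨j, hj⟩
  rw [Finset.mem_singleton] at hj
  subst hj
  exact ⟨fun _ => Finset.mem_singleton_self _, fun _ => Finset.mem_univ _⟩

/-- the conditions on the factors of CM type imply the absence of exceptional relations -/
theorem noExotic_sub (T : Finset I) (hC : ∀ i ∈ T, IsCMType (A i) (K i))
    (h : OddMultiplicityFree (fun i : {i // i ∈ T} => K i.1) ∨ LowDimCM A n K T ∨
      PrimeDimCM A n T) :
    OddMultiplicityFree (fun i : {i // i ∈ T} => K i.1) ∨ ((∀ i ∈ T, (A i).IsSimple) ∧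
      (∀ i ∈ T, ∀ j ∈ T, i ≠ j → ∀ f, (A i).IsMor (A j) f → ∀ v, f v = 0) ∧
        NoExotic (fun i : {i // i ∈ T} => n i.1) (fun i => K i.1) Finset.univ) := by
  classical
  rcases noExotic_of (fun i : {i // i ∈ T} => A i.1) (fun i => n i.1) (fun i => K i.1) ∅
    Finset.univ (fun i => Or.inr (Finset.mem_univ i)) (fun i hi => absurd hi (Finset.notMem_empty i))
    (fun i _ => hC i.1 i.2)
    (h.imp id (Or.imp (lowDimCM_sub A n K T) (primeDimCM_sub A n T))) with h1 | ⟨h1, h2, h3⟩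
  · exact Or.inl h1
  · exact Or.inr ⟨fun i hi => h1 ⟨i, hi⟩ (Finset.mem_univ _), fun i hi j hj hij =>
      h2 ⟨i, hi⟩ (Finset.mem_univ _) ⟨j, hj⟩ (Finset.mem_univ _)
        (fun h => hij (congrArg Subtype.val h)), h3⟩

variable [Fintype I] [DecidableEq I] {n K}

/-- no exceptional relations for the weights of the factors of CM type -/
theorem relT_noExotic {k : ℕ} {T : Finset I}
    (F : ∀ i : {i // i ∈ T}, {F : Fac (pData (A i.1)) (K i.1) // ¬ F.gl})
    (α : MultilinearMap ℂ (fun _ : Fin (2 * k) => HW (fun i => Fin (A i).g ⊕ Fin (A i).g) n) ℂ)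
    (hB : ∀ v : Fin (2 * k) → HW (fun i => Fin (A i).g ⊕ Fin (A i).g) n,
      (∀ r, IsRatP n (fun i => pData (A i)) (v r)) →
      ∃ q : ℚ, α v = (2 * Real.pi * Complex.I) ^ k * q)
    (hA : ∀ v : Fin (2 * k) → HW (fun i => Fin (A i).g ⊕ Fin (A i).g) n,
      (∀ r i m j, IsAlgebraic ℚ (v r i m j)) → IsAlgebraic ℚ (α v))
    (hC : ∀ i ∈ T, IsCMType (A i) (K i))
    (h : OddMultiplicityFree (fun i : {i // i ∈ T} => K i.1) ∨ LowDimCM A n K T ∨
      PrimeDimCM A n T)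
    (z : Emb (fun i : {i // i ∈ T} => K i.1) → ℤ)
    (hzU : (fun t => (z t : ℚ)) ∈ relT n (fun i => pData (A i)) F α)
    (hzn : ∀ t, |z t| ≤ n t.1.1) (h4 : ∃ m : ℤ, ∑ t, |z t| = 4 * m)
    (t : Emb (fun i : {i // i ∈ T} => K i.1)) : z t = 0 := by
  have hodd := relT_odd n (fun i => pData (A i)) F α
  rcases noExotic_sub A n K T hC h with hfree | ⟨hsimple, hiso, hne⟩
  · by_contra hz0
    obtain ⟨w, hw1, hw2, hw3⟩ := relT_ne n (fun i => pData (A i)) F α
      Complex.two_pi_I_ne_zero hB hA t.1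
    refine hw3 (hfree _ hodd t.1 ⟨_, hzU, t.2, ?_⟩ w hw1 hw2)
    exact_mod_cast hz0
  · refine hne _ hodd ?_ z hzU hzn h4 t (Finset.mem_univ _)
    intro s s' _ _ hrel
    refine eq_of_relT n (fun i => pData (A i)) F _ Complex.two_pi_I_ne_zero hB hA s s'
      ?_ ?_ hrel
    · intro f hf
      refine (F s.1).1.simple_rho (F s.1).2 ?_ f hf
      intro g hg hg0
      exact hsimple s.1.1 s.1.2 g (isEnd_of_isDRB (A s.1.1) g hg) hg0
    · intro hne f hf v
      have h1 := (isDRB_iff (A s.1.1) (A s'.1.1) f).mp hf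
      exact hiso s.1.1 s.1.2 s'.1.1 s'.1.2 (fun h => hne (Subtype.ext h)) f
        ⟨f.isLinear, h1.1, h1.2, hom_fil (A s.1.1) (A s'.1.1) f f.isLinear h1.1 h1.2⟩ v

/-- no exceptional relations of bounded size for the weights of the factors of CM type -/
theorem relT_noExoticK {k : ℕ} {T : Finset I}
    (F : ∀ i : {i // i ∈ T}, {F : Fac (pData (A i.1)) (K i.1) // ¬ F.gl})
    (α : MultilinearMap ℂ (fun _ : Fin (2 * k) => HW (fun i => Fin (A i).g ⊕ Fin (A i).g) n) ℂ)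
    (hB : ∀ v : Fin (2 * k) → HW (fun i => Fin (A i).g ⊕ Fin (A i).g) n,
      (∀ r, IsRatP n (fun i => pData (A i)) (v r)) →
      ∃ q : ℚ, α v = (2 * Real.pi * Complex.I) ^ k * q)
    (hA : ∀ v : Fin (2 * k) → HW (fun i => Fin (A i).g ⊕ Fin (A i).g) n,
      (∀ r i m j, IsAlgebraic ℚ (v r i m j)) → IsAlgebraic ℚ (α v))
    (hC : ∀ i ∈ T, IsCMType (A i) (K i))
    (h : OddMultiplicityFree (fun i : {i // i ∈ T} => K i.1) ∨ LowDimCM A n K T ∨
      PrimeFamCM A n K T k)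
    (z : Emb (fun i : {i // i ∈ T} => K i.1) → ℤ)
    (hzU : (fun t => (z t : ℚ)) ∈ relT n (fun i => pData (A i)) F α)
    (hzn : ∀ t, |z t| ≤ n t.1.1) (h4 : ∃ m : ℤ, ∑ t, |z t| = 4 * m) (hk4 : ∑ t, |z t| ≤ 4 * k)
    (t : Emb (fun i : {i // i ∈ T} => K i.1)) : z t = 0 := by
  rcases h with h | h | h
  · exact relT_noExotic A F α hB hA hC (Or.inl h) z hzU hzn h4 t
  · exact relT_noExotic A F α hB hA hC (Or.inr (Or.inl h)) z hzU hzn h4 t
  have hodd := relT_odd n (fun i => pData (A i)) F α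
  refine prime_fam (Finset.univ : Finset {i // i ∈ T}) (fun i => (A i.1).g)
    (fun i hi => absurd (Finset.mem_univ i) hi)
    (fun i _ => (hC i.1 i.2).choose) (fun i _ => ?_) (fun i _ => h.dim i.1 i.2)
    (fun i _ j _ hij => h.distinct i.1 i.2 j.1 j.2 (fun h => hij (Subtype.ext h))) hodd ?_
    (fun i => n i.1) k ?_ z hzU hzn h4 hk4 t
  · obtain ⟨h1, ⟨C⟩⟩ := hC i.1 i.2
    exact C.degree
  · intro s s' _ hs' hrel
    refine eq_of_relT n (fun i => pData (A i)) F _ Complex.two_pi_I_ne_zero hB hA s s'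
      ?_ (fun hne => absurd hs'.symm hne) hrel
    intro f hf
    refine (F s.1).1.simple_rho (F s.1).2 ?_ f hf
    intro g hg hg0
    exact h.simple s.1.1 s.1.2 g (isEnd_of_isDRB (A s.1.1) g hg) hg0
  · rintro i - j - hni hnj hqi hqj (⟨hij, h1⟩ | ⟨rfl, h1, h2⟩)
    · exact h.pair i.1 i.2 j.1 j.2 (fun h => hij (Subtype.ext h)) hni hnj hqi hqj h1
    · have := h.power i.1 i.2 h2 h1 hqi
      omega

end conditions

end Pool.Agent.Helper28.GPC
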