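import Pool.Agent.Helper7.U.UF
import Pool.Agent.Helper84.Sign
import Pool.Agent.Helper84.AutC

/-!
Twists of the infinitesimal symmetries by automorphisms of the field of complex numbers, and
Galois descent for subspaces stable under twists.
-/

open scoped ComplexConjugate Cardinal Polynomial

namespace Pool.Agent.Helper28.GPC

open Module NumberField
open Pool.Agent.GPC Pool.Agent.Helper7
open Pool.Agent.Helper84 (exists_ringEquiv_of_basis rational_of_fixed)

set_option linter.unusedSectionVars false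

section fixed

/-- Automorphisms of `ℂ` act transitively on the transcendental numbers. -/
lemma exists_aut_transcendental (z z' : ℂ) (hz : Transcendental ℚ z) (hz' : Transcendental ℚ z') :
    ∃ τ : ℂ ≃+* ℂ, τ z = z' := by
  have key : ∀ x : ℂ, Transcendental ℚ x → ∃ s : Set ℂ,
      (letI : Algebra ℚ[X] ℂ := (Polynomial.aeval (R := ℚ) x).toRingHom.toAlgebra
       IsTranscendenceBasis ℚ[X] (fun y : s => (y : ℂ))) ∧ #ℂ = #s := by
    intro x hx
    letI : Algebra ℚ[X] ℂ := (Polynomial.aeval (R := ℚ) x).toRingHom.toAlgebra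
    have hinj : Function.Injective (algebraMap ℚ[X] ℂ) := transcendental_iff_injective.mp hx
    have hf : FaithfulSMul ℚ[X] ℂ := (faithfulSMul_iff_algebraMap_injective _ _).mpr hinj
    obtain ⟨s, hs⟩ := exists_isTranscendenceBasis ℚ[X] ℂ
    refine ⟨s, hs, ?_⟩
    have h1 := IsAlgClosed.cardinal_eq_cardinal_transcendence_basis_of_aleph0_lt _ hs
      (by
        rw [Polynomial.cardinalMk_eq_max]
        simp) (by
        rw [Cardinal.mk_complex]
        exact Cardinal.aleph0_lt_continuum)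
    rwa [Cardinal.lift_id, Cardinal.lift_id] at h1
  obtain ⟨s, hs, hcs⟩ := key z hz
  obtain ⟨s', hs', hcs'⟩ := key z' hz'
  obtain ⟨e⟩ := Cardinal.eq.mp (hcs.symm.trans hcs')
  have hs2 : (letI : Algebra ℚ[X] ℂ := (Polynomial.aeval (R := ℚ) z').toRingHom.toAlgebra
      IsTranscendenceBasis ℚ[X] (fun y : s => ((e y : s') : ℂ))) := by
    letI : Algebra ℚ[X] ℂ := (Polynomial.aeval (R := ℚ) z').toRingHom.toAlgebra
    exact hs'.comp_equiv e
  obtain ⟨τ, hτ⟩ := @exists_ringEquiv_of_basis ℚ[X] ℂ ℂ _ _ _ _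
    (Polynomial.aeval (R := ℚ) z).toRingHom.toAlgebra
    (Polynomial.aeval (R := ℚ) z').toRingHom.toAlgebra _ _ _ _ _ hs hs2
  refine ⟨τ, ?_⟩
  have h1 := hτ Polynomial.X
  have e1 : (Polynomial.aeval (R := ℚ) z).toRingHom Polynomial.X = z := Polynomial.aeval_X z
  have e2 : (Polynomial.aeval (R := ℚ) z').toRingHom Polynomial.X = z' := Polynomial.aeval_X z'
  rw [← e1, ← e2]
  exact h1

/-- A complex number fixed by all automorphisms of `ℂ` is rational. -/
lemma rat_of_fixed (z : ℂ) (h : ∀ τ : ℂ ≃+* ℂ, τ z = z) : ∃ q : ℚ, z = q := by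
  by_cases hz : IsAlgebraic ℚ z
  · obtain ⟨q, hq⟩ := rational_of_fixed z hz h
    exact ⟨q, hq.symm⟩
  · exfalso
    have h2 : Transcendental ℚ (z + 1) := by
      intro h3
      apply hz
      have h4 : z = (z + 1) - 1 := by ring
      rw [h4]
      exact h3.sub isAlgebraic_one
    obtain ⟨τ, hτ⟩ := exists_aut_transcendental z (z + 1) hz h2
    rw [h τ] at hτ
    have : (1 : ℂ) = 0 := by linear_combination (-1 : ℂ) * hτ
    exact one_ne_zero this

/-- Galois descent: a subspace stable under the automorphisms of `ℂ` acting on coordinates is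
spanned by rational vectors. -/
theorem descent_fin {ι : Type*} [Fintype ι] : ∀ (S : Finset ι) (N : Submodule ℂ (ι → ℂ)),
    (∀ v ∈ N, ∀ i ∉ S, v i = 0) →
    (∀ τ : ℂ ≃+* ℂ, ∀ v ∈ N, (fun i => τ (v i)) ∈ N) →
    N ≤ Submodule.span ℂ {v | v ∈ N ∧ ∀ i, ∃ q : ℚ, v i = q} := by
  classical
  intro S
  induction S using Finset.strongInduction with
  | _ S ih =>
    intro N hS hN
    by_cases h0 : ∀ v ∈ N, v = 0
    · intro v hv
      rw [h0 v hv]
      exact Submodule.zero_mem _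
    push Not at h0
    -- a vector of minimal support
    obtain ⟨m, hm⟩ : ∃ m, m = sInf {m : ℕ | ∃ v ∈ N, v ≠ 0 ∧
      (Finset.univ.filter fun i => v i ≠ 0).card = m} := ⟨_, rfl⟩
    have hne : {m : ℕ | ∃ v ∈ N, v ≠ 0 ∧
      (Finset.univ.filter fun i => v i ≠ 0).card = m}.Nonempty := by
      obtain ⟨v, hv, hv0⟩ := h0
      exact ⟨_, v, hv, hv0, rfl⟩
    obtain ⟨v, hv, hv0, hvm⟩ := Nat.sInf_mem hne
    obtain ⟨s, hs⟩ : ∃ s, v s ≠ 0 := by
      by_contra hcon
      push Not at hcon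
      exact hv0 (funext hcon)
    obtain ⟨w, hw⟩ : ∃ w, w = (v s)⁻¹ • v := ⟨_, rfl⟩
    have hwN : w ∈ N := by rw [hw]; exact N.smul_mem _ hv
    have hws : w s = 1 := by rw [hw, Pi.smul_apply, smul_eq_mul, inv_mul_cancel₀ hs]
    have hwsupp : ∀ i, w i ≠ 0 → v i ≠ 0 := by
      intro i h h'
      apply h
      rw [hw, Pi.smul_apply, h', smul_zero]
    have hfix : ∀ τ : ℂ ≃+* ℂ, (fun i => τ (w i)) = w := by
      intro τ
      by_contra hcon
      obtain ⟨d, hd⟩ : ∃ d, d = (fun i => τ (w i)) - w := ⟨_, rfl⟩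
      have hdN : d ∈ N := by rw [hd]; exact N.sub_mem (hN τ w hwN) hwN
      have hd0 : d ≠ 0 := by rw [hd]; exact sub_ne_zero.mpr hcon
      have hdi : ∀ i, d i = τ (w i) - w i := fun i => by rw [hd]; rfl
      have hlt : (Finset.univ.filter fun i => d i ≠ 0).card <
          (Finset.univ.filter fun i => v i ≠ 0).card := by
        apply Finset.card_lt_card
        rw [Finset.ssubset_iff_of_subset]
        · refine ⟨s, Finset.mem_filter.mpr ⟨Finset.mem_univ _, hs⟩, fun h => ?_⟩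
          apply (Finset.mem_filter.mp h).2
          rw [hdi, hws, map_one, sub_self]
        · intro i hi
          rw [Finset.mem_filter] at hi ⊢
          refine ⟨Finset.mem_univ _, hwsupp i fun h => hi.2 ?_⟩
          rw [hdi, h, map_zero, sub_self]
      have h1 := Nat.sInf_le (s := {m : ℕ | ∃ v ∈ N, v ≠ 0 ∧
        (Finset.univ.filter fun i => v i ≠ 0).card = m}) ⟨d, hdN, hd0, rfl⟩
      omega
    have hwr : ∀ i, ∃ q : ℚ, w i = q := fun i => rat_of_fixed (w i) fun τ => congrFun (hfix τ) i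
    -- the vectors with vanishing coordinate
    let N' : Submodule ℂ (ι → ℂ) :=
      { carrier := {x | x ∈ N ∧ x s = 0}
        zero_mem' := ⟨N.zero_mem, rfl⟩
        add_mem' := by
          rintro x y ⟨hx, hx'⟩ ⟨hy, hy'⟩
          exact ⟨N.add_mem hx hy, by rw [Pi.add_apply, hx', hy', add_zero]⟩
        smul_mem' := by
          rintro c x ⟨hx, hx'⟩
          exact ⟨N.smul_mem c hx, by rw [Pi.smul_apply, hx', smul_zero]⟩ }
    have hsS : s ∈ S := by
      by_contra h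
      exact hs (hS v hv s h)
    have h1 := ih (S.erase s) (Finset.erase_ssubset hsS) N' (fun x hx i hi => by
        by_cases h : i = s
        · rw [h]; exact hx.2
        · exact hS x hx.1 i fun h' => hi (Finset.mem_erase.mpr ⟨h, h'⟩))
      (fun τ x hx => ⟨hN τ x hx.1, by
        show τ (x s) = 0
        rw [hx.2, map_zero]⟩)
    have h2 : Submodule.span ℂ {v | v ∈ N' ∧ ∀ i, ∃ q : ℚ, v i = q} ≤
        Submodule.span ℂ {v | v ∈ N ∧ ∀ i, ∃ q : ℚ, v i = q} :=
      Submodule.span_mono fun x hx => ⟨hx.1.1, hx.2⟩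
    intro x hx
    have h3 : x = x s • w + (x - x s • w) := by abel
    rw [h3]
    refine Submodule.add_mem _ (Submodule.smul_mem _ _ (Submodule.subset_span ⟨hwN, hwr⟩))
      (h2 (h1 ⟨N.sub_mem hx (N.smul_mem _ hwN), ?_⟩))
    rw [Pi.sub_apply, Pi.smul_apply, hws, smul_eq_mul, mul_one, sub_self]

end fixed

section family

variable {I : Type} [Fintype I] [DecidableEq I] (n : I → ℕ)
  {κ : I → Type} [∀ i, Fintype (κ i)] [∀ i, DecidableEq (κ i)] {ϖ : ℂ}
  (P : ∀ i, PData (κ i) ϖ)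
  {K : I → Type} [∀ i, Field (K i)] [∀ i, NumberField (K i)]
  {k : ℕ} (α : MultilinearMap ℂ (fun _ : Fin (2 * k) => HW κ n) ℂ)

/-- the element with given complex matrix entries -/
noncomputable def fromC (y : EntryIdx P → ℂ) : GG κ :=
  (fun i => (P i).bB.constr ℂ (fun q => ∑ p, y (.inl ⟨i, p, q⟩) • (P i).bB p), y (.inr ()))

/-- the matrix entries -/
noncomputable def entC : GG κ →ₗ[ℂ] (EntryIdx P → ℂ) where
  toFun X := Sum.elim (fun t => (P t.1).bB.repr (X.1 t.1 ((P t.1).bB t.2.2)) t.2.1) (fun _ => X.2)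
  map_add' X Y := by
    funext t
    rcases t with t | t
    · show (P t.1).bB.repr (X.1 t.1 ((P t.1).bB t.2.2) + Y.1 t.1 ((P t.1).bB t.2.2)) t.2.1 = _
      rw [map_add]; rfl
    · rfl
  map_smul' c X := by
    funext t
    rcases t with t | t
    · show (P t.1).bB.repr (c • X.1 t.1 ((P t.1).bB t.2.2)) t.2.1 = _
      rw [map_smul]; rfl
    · rfl

lemma entC_inl (X : GG κ) (i : I) (p q : (P i).ι) :
    entC P X (.inl ⟨i, p, q⟩) = (P i).bB.repr (X.1 i ((P i).bB q)) p := rfl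

lemma entC_inr (X : GG κ) : entC P X (.inr ()) = X.2 := rfl

lemma fromC_basis (y : EntryIdx P → ℂ) (i : I) (q : (P i).ι) :
    (fromC P y).1 i ((P i).bB q) = ∑ p, y (.inl ⟨i, p, q⟩) • (P i).bB p := by
  rw [fromC]
  exact Basis.constr_basis _ _ _ _

lemma entC_fromC (y : EntryIdx P → ℂ) : entC P (fromC P y) = y := by
  classical
  funext t
  rcases t with ⟨i, p, q⟩ | t
  · rw [entC_inl, fromC_basis, map_sum, Finsupp.finsetSum_apply, Finset.sum_eq_single p]
    · rw [map_smul, Finsupp.smul_apply, Basis.repr_self, Finsupp.single_eq_same, smul_eq_mul,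
        mul_one]
    · intro p' _ hp'
      rw [map_smul, Finsupp.smul_apply, Basis.repr_self, Finsupp.single_eq_of_ne hp'.symm,
        smul_zero]
    · intro h; exact absurd (Finset.mem_univ _) h
  · rfl

lemma entC_injective : Function.Injective (entC P) := by
  intro X Y h
  apply Prod.ext
  · funext i
    apply (P i).bB.ext
    intro q
    apply (P i).bB.repr.injective
    ext p
    exact congrFun h (.inl ⟨i, p, q⟩)
  · exact congrFun h (.inr ())

/-- the twist of an element by an automorphism of `ℂ` -/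
noncomputable def tw (τ : ℂ ≃+* ℂ) (X : GG κ) : GG κ := fromC P (fun t => τ (entC P X t))

lemma entC_tw (τ : ℂ ≃+* ℂ) (X : GG κ) (t : EntryIdx P) :
    entC P (tw P τ X) t = τ (entC P X t) := by
  rw [tw, entC_fromC]

lemma tw_snd (τ : ℂ ≃+* ℂ) (X : GG κ) : (tw P τ X).2 = τ X.2 := rfl

lemma tw_basis (τ : ℂ ≃+* ℂ) (X : GG κ) (i : I) (q : (P i).ι) :
    (tw P τ X).1 i ((P i).bB q) =
      ∑ p, τ ((P i).bB.repr (X.1 i ((P i).bB q)) p) • (P i).bB p := by
  rw [tw, fromC_basis]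
  rfl

lemma tw_add (τ : ℂ ≃+* ℂ) (X Y : GG κ) : tw P τ (X + Y) = tw P τ X + tw P τ Y := by
  apply entC_injective P
  funext t
  rw [entC_tw, map_add, map_add, Pi.add_apply, Pi.add_apply, entC_tw, entC_tw, map_add]

lemma tw_smul (τ : ℂ ≃+* ℂ) (c : ℂ) (X : GG κ) : tw P τ (c • X) = τ c • tw P τ X := by
  apply entC_injective P
  funext t
  rw [entC_tw, map_smul, map_smul, Pi.smul_apply, Pi.smul_apply, entC_tw, smul_eq_mul, map_mul,
    smul_eq_mul]

lemma tw_zero (τ : ℂ ≃+* ℂ) : tw P τ (0 : GG κ) = 0 := by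
  have h := tw_smul P τ 0 (0 : GG κ)
  rw [zero_smul, map_zero, zero_smul] at h
  exact h

lemma tw_symm_tw (τ : ℂ ≃+* ℂ) (X : GG κ) : tw P τ.symm (tw P τ X) = X := by
  apply entC_injective P
  funext t
  rw [entC_tw, entC_tw, RingEquiv.symm_apply_apply]

lemma tw_tw_symm (τ : ℂ ≃+* ℂ) (X : GG κ) : tw P τ (tw P τ.symm X) = X := by
  apply entC_injective P
  funext t
  rw [entC_tw, entC_tw, RingEquiv.apply_symm_apply]

lemma tw_ratl (τ : ℂ ≃+* ℂ) (X : GG κ) (hX : IsRatl P X) : tw P τ X = X := by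
  apply entC_injective P
  funext t
  rw [entC_tw]
  rcases t with ⟨i, p, q⟩ | t
  · rw [entC_inl]
    obtain ⟨a, ha⟩ := (P i).repr_rat _ (hX.1 i _ ((P i).basis_mem q)) p
    rw [ha, map_ratCast]
  · show τ X.2 = X.2
    obtain ⟨a, ha⟩ := hX.2
    rw [ha, map_ratCast]

lemma isRatl_of_entC (X : GG κ) (h : ∀ t, ∃ q : ℚ, entC P X t = q) : IsRatl P X := by
  refine ⟨fun i v hv => ?_, h (.inr ())⟩
  unfold PData.Q at hv
  induction hv using Submodule.span_induction with
  | mem x hx =>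
    obtain ⟨q, rfl⟩ := hx
    rw [← (P i).bB.sum_repr (X.1 i ((P i).bB q))]
    refine Submodule.sum_mem _ fun p _ => ?_
    obtain ⟨a, ha⟩ := h (.inl ⟨i, p, q⟩)
    rw [entC_inl] at ha
    rw [ha]
    exact (P i).rat_smul_mem _ _ ((P i).basis_mem p)
  | zero => rw [map_zero]; exact Submodule.zero_mem _
  | add x y _ _ hx hy => rw [map_add]; exact Submodule.add_mem _ hx hy
  | smul a x _ hx =>
    have h1 : a • x = (a : ℂ) • x := by
      rw [← algebraMap_smul ℂ a x]; rfl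
    rw [h1, map_smul]
    exact (P i).rat_smul_mem _ _ hx

/-- Galois descent for spaces of endomorphisms -/
theorem descent (N : Submodule ℂ (GG κ)) (hN : ∀ (τ : ℂ ≃+* ℂ) (X : GG κ), X ∈ N → tw P τ X ∈ N) :
    N ≤ Submodule.span ℂ {X | X ∈ N ∧ IsRatl P X} := by
  classical
  have h1 := descent_fin (Finset.univ : Finset (EntryIdx P)) (N.map (entC P))
    (fun v _ i hi => absurd (Finset.mem_univ i) hi) (by
      rintro τ _ ⟨X, hX, rfl⟩
      exact ⟨tw P τ X, hN τ X hX, funext fun t => entC_tw P τ X t⟩)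
  intro X hX
  have h2 := h1 ⟨X, hX, rfl⟩
  have h3 : {v | v ∈ N.map (entC P) ∧ ∀ i, ∃ q : ℚ, v i = q} ⊆
      (entC P) '' {X | X ∈ N ∧ IsRatl P X} := by
    rintro _ ⟨⟨Y, hY, rfl⟩, h⟩
    exact ⟨Y, ⟨hY, isRatl_of_entC P Y h⟩, rfl⟩
  have h4 := Submodule.span_mono (R := ℂ) h3 h2
  rw [← Submodule.map_span] at h4
  obtain ⟨Y, hY, hYX⟩ := h4
  rw [← entC_injective P hYX]
  exact hY

variable (hϖ : ϖ ≠ 0)
  (hB : ∀ v : Fin (2 * k) → HW κ n, (∀ r, IsRatP n P (v r)) → ∃ q : ℚ, α v = ϖ ^ k * q)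

include hϖ hB in
/-- twists of symmetries are symmetries -/
lemma isInv_tw (τ : ℂ ≃+* ℂ) (X : GG κ) (hX : IsInv n P α X) : IsInv n P α (tw P τ X) := by
  have h1 := mem_span_of_isInv n P α hϖ hB X hX
  refine Submodule.span_induction (p := fun X _ => IsInv n P α (tw P τ X)) ?_ ?_ ?_ ?_ h1
  · intro Y hY
    rw [tw_ratl P τ Y hY.2]
    exact hY.1
  · rw [tw_zero]; exact IsInv.zero n P α
  · intro X Y _ _ h2 h3
    rw [tw_add]
    exact h2.add n P α h3
  · intro c X _ h2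
    rw [tw_smul]
    exact h2.smul n P α _

lemma comm_UF {X : GG κ} (hX : IsInv n P α X) (i : I) {r : ℕ} (F' : UF (P i) (K i) r) :
    F'.Comm (X.1 i) := fun x v => hX.comm i i _ (F'.hρ x) v

/-- the entries of a rational symmetry at a place -/
lemma entry_rat (Y : GG κ) (hY : IsInv n P α Y) (hr : IsRatl P Y) (i : I) {r : ℕ}
    (F' : UF (P i) (K i) r) (a b : Fin r) :
    ∃ x : K i, ∀ σ : K i →+* ℂ, F'.co σ a (Y.1 i (F'.e σ b)) = σ x := by
  classical
  obtain ⟨m, hm⟩ := F'.exists_matK (Y.1 i) (hr.1 i)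
  refine ⟨m a b, fun σ => ?_⟩
  rw [F'.act_e _ (comm_UF n P α hY i F') m hm, map_sum, Finset.sum_eq_single a]
  · rw [map_smul, F'.co_e, if_pos ⟨rfl, rfl⟩, smul_eq_mul, mul_one]
  · intro c _ hc
    rw [map_smul, F'.co_e, if_neg (fun h => hc h.2.symm), smul_zero]
  · intro h; exact absurd (Finset.mem_univ _) h

/-- Galois equivariance of the entries of a rational symmetry -/
lemma entry_galois (Y : GG κ) (hY : IsInv n P α Y) (hr : IsRatl P Y) (τ : ℂ ≃+* ℂ) (i : I) {r : ℕ}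
    (F' : UF (P i) (K i) r) (σ : K i →+* ℂ) (a b : Fin r) :
    F'.co ((τ : ℂ →+* ℂ).comp σ) a (Y.1 i (F'.e ((τ : ℂ →+* ℂ).comp σ) b)) =
      τ (F'.co σ a (Y.1 i (F'.e σ b))) := by
  obtain ⟨x, hx⟩ := entry_rat n P α Y hY hr i F' a b
  rw [hx, hx]
  rfl

include hϖ hB in
/-- the entries of a twist -/
lemma entry_tw (τ : ℂ ≃+* ℂ) (X : GG κ) (hX : IsInv n P α X) (i : I) {r : ℕ}
    (F' : UF (P i) (K i) r) (σ : K i →+* ℂ) (a b : Fin r) :
    F'.co ((τ : ℂ →+* ℂ).comp σ) a ((tw P τ X).1 i (F'.e ((τ : ℂ →+* ℂ).comp σ) b)) =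
      τ (F'.co σ a (X.1 i (F'.e σ b))) := by
  have h1 := mem_span_of_isInv n P α hϖ hB X hX
  refine Submodule.span_induction (p := fun X _ =>
    F'.co ((τ : ℂ →+* ℂ).comp σ) a ((tw P τ X).1 i (F'.e ((τ : ℂ →+* ℂ).comp σ) b)) =
      τ (F'.co σ a (X.1 i (F'.e σ b)))) ?_ ?_ ?_ ?_ h1
  · intro Y hY
    rw [tw_ratl P τ Y hY.2]
    exact entry_galois n P α Y hY.1 hY.2 τ i F' σ a b
  · rw [tw_zero]
    show F'.co _ a ((0 : Module.End ℂ (κ i → ℂ)) _) = τ (F'.co σ a ((0 : Module.End ℂ (κ i → ℂ)) _))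
    rw [LinearMap.zero_apply, LinearMap.zero_apply, map_zero, map_zero, map_zero]
  · intro X Y _ _ h2 h3
    rw [tw_add]
    show F'.co _ a ((tw P τ X).1 i _ + (tw P τ Y).1 i _) = τ (F'.co σ a (X.1 i _ + Y.1 i _))
    rw [map_add, map_add, map_add, h2, h3]
  · intro c X _ h2
    rw [tw_smul]
    show F'.co _ a (τ c • (tw P τ X).1 i _) = τ (F'.co σ a (c • X.1 i _))
    rw [map_smul, map_smul, smul_eq_mul, smul_eq_mul, map_mul, h2]

include hϖ hB in
/-- every symmetry is a twist -/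
theorem exists_twist (τ : ℂ ≃+* ℂ) (X : GG κ) (hX : IsInv n P α X) :
    ∃ X', IsInv n P α X' ∧ X = tw P τ X' ∧ X.2 = τ X'.2 ∧
      ∀ (i : I) (r : ℕ) (F' : UF (P i) (K i) r) (σ : K i →+* ℂ) (a b : Fin r),
        F'.co ((τ : ℂ →+* ℂ).comp σ) a (X.1 i (F'.e ((τ : ℂ →+* ℂ).comp σ) b)) =
          τ (F'.co σ a (X'.1 i (F'.e σ b))) := by
  have h1 : X = tw P τ (tw P τ.symm X) := (tw_tw_symm P τ X).symm
  have hX' := isInv_tw n P α hϖ hB τ.symm X hX
  refine ⟨tw P τ.symm X, hX', h1, ?_, fun i r F' σ a b => ?_⟩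
  · rw [tw_snd, RingEquiv.apply_symm_apply]
  · have h2 := entry_tw n P α hϖ hB τ _ hX' i F' σ a b
    rw [← h1] at h2
    exact h2

/-- the twist by complex conjugation -/
lemma tw_star (X : GG κ) (i : I) (v : κ i → ℂ) :
    (tw P (starRingAut : ℂ ≃+* ℂ) X).1 i v = cB (P i) (X.1 i (cB (P i) v)) := by
  have hb : ∀ q, (tw P (starRingAut : ℂ ≃+* ℂ) X).1 i ((P i).bB q) =
      cB (P i) (X.1 i ((P i).bB q)) := by
    intro q
    rw [tw_basis]
    rfl
  conv_lhs => rw [← (P i).bB.sum_repr v]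
  have e : cB (P i) v = ∑ j, conj ((P i).bB.repr v j) • (P i).bB j := rfl
  rw [e, map_sum, map_sum, cB_sum]
  refine Finset.sum_congr rfl fun q _ => ?_
  rw [map_smul, map_smul, hb, cB_smul, Complex.conj_conj]

include hϖ hB in
/-- the complex conjugate of a symmetry -/
theorem exists_real (X : GG κ) (hX : IsInv n P α X) : ∃ X', IsInv n P α X' ∧ X'.2 = conj X.2 ∧
    X' = tw P (starRingAut : ℂ ≃+* ℂ) X ∧
    ∀ i v, X'.1 i v = cB (P i) (X.1 i (cB (P i) v)) :=
  ⟨tw P (starRingAut : ℂ ≃+* ℂ) X, isInv_tw n P α hϖ hB _ X hX, rfl, rfl,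
    fun i v => tw_star P X i v⟩

end family

end Pool.Agent.Helper28.GPC
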